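import Mathlib

/-!
# Asplund spaces and 1-norming subspaces, a principle about finite orders, forcing
-/

set_option autoImplicit false
set_option linter.unusedSectionVars false
set_option linter.unusedVariables false

namespace Pool.Agent.Helper161.Asp

open Cardinal

section Question

/-- Question Q1: every nonseparable Asplund space (every separable subspace has a separable dual)
has an equivalent norm `N` such that the only closed `1`-norming subspace of the dual is the whole
dual. -/
def PositiveQ1 : Prop :=
  ∀ (X : Type) [NormedAddCommGroup X] [NormedSpace ℝ X] [CompleteSpace X],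
    (∀ Y : Submodule ℝ X, TopologicalSpace.SeparableSpace Y →
        TopologicalSpace.SeparableSpace (Y →L[ℝ] ℝ)) →
    ¬ TopologicalSpace.SeparableSpace X →
    ∃ N : X → ℝ,
      (∀ x y : X, N (x + y) ≤ N x + N y) ∧
      (∀ (r : ℝ) (x : X), N (r • x) = |r| * N x) ∧
      (∃ c C : ℝ, 0 < c ∧ 0 < C ∧ ∀ x : X, c * ‖x‖ ≤ N x ∧ N x ≤ C * ‖x‖) ∧
      ∀ Y : Submodule ℝ (X →L[ℝ] ℝ),
        IsClosed (Y : Set (X →L[ℝ] ℝ)) →
        (∀ x : X, ∀ ε : ℝ, 0 < ε →
            ∃ f ∈ Y, (∀ z : X, |f z| ≤ N z) ∧ N x - ε < f x) →
        Y = ⊤

end Question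

section Principle

/-- Two finite lists of elements of `Ω`, each with two rational labels. `Twin le l m`: the labels
agree, and an element of `l` is `le`-below an element `b` of `m` iff the corresponding element of
`m` is. -/
def Twin {Ω : Type} (le : Ω → Ω → Prop) (l m : List (Ω × ℚ × ℚ)) : Prop :=
  l.map Prod.snd = m.map Prod.snd ∧ ∀ e ∈ l.zip m, ∀ b ∈ m, (le e.1.1 b.1 ↔ le e.2.1 b.1)

/-- The principle: there is a partial order `le` on `Ω`, contained in `≤`, such that the common
lower bounds of any two elements are the lower bounds of finitely many elements, and for each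
function `c` from `Ω` to finite labelled lists there are `β < α` such that `c β` and `c α` are
twins. -/
def AsplundPrinciple (Ω : Type) [LinearOrder Ω] : Prop :=
  ∃ le : Ω → Ω → Prop, (∀ a, le a a) ∧ (∀ a b c, le a b → le b c → le a c) ∧
    (∀ a b, le a b → a ≤ b) ∧
    (∀ a b, ∃ F : Finset Ω, ∀ c, (le c a ∧ le c b) ↔ ∃ d ∈ F, le c d) ∧
    ∀ c : Ω → List (Ω × ℚ × ℚ), ∃ β α, β < α ∧ Twin le (c β) (c α)

end Principle

section Lang

universe v w

variable {P : Type} [Preorder P]

/-- `p` forces `not φ` iff no `q ≤ p` forces `φ`. -/
def fnot (φ : Set P) : Set P := {p | ∀ q ≤ p, q ∉ φ}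

/-- `p` forces `φ and ψ` iff it forces both. -/
def fand (φ ψ : Set P) : Set P := {p | p ∈ φ ∧ p ∈ ψ}

/-- `p` forces `for all i, φ i` iff it forces every `φ i`. -/
def fall {ι : Sort v} (φ : ι → Set P) : Set P := {p | ∀ i, p ∈ φ i}

/-- `φ implies ψ` is `not (φ and not ψ)`. -/
def fimp (φ ψ : Set P) : Set P := fnot (fand φ (fnot ψ))

/-- `there is i with φ i` is `not for all i, not φ i`. -/
def fex {ι : Sort v} (φ : ι → Set P) : Set P := fnot (fall fun i => fnot (φ i))

/-- An absolute statement about ground model objects. -/
def fground (h : Prop) : Set P := {_p | h}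

/-- `p` forces that the generic filter meets the set `N` of conditions:
the set of `r` lying below some member of `N` is dense below `p`. -/
def meets (N : Set P) : Set P := {p | ∀ q ≤ p, ∃ r ≤ q, ∃ s ∈ N, r ≤ s}

/-- The relation named by `R` is a function from `X` to `Y`. -/
def IsFun {X : Type v} {Y : Type w} (R : X → Y → Set P) : Set P :=
  fand (fall fun x => fex fun y => meets (R x y))
    (fall fun x => fall fun y => fall fun y' =>
      fimp (fand (meets (R x y)) (meets (R x y'))) (fground (y = y')))

/-- the countable chain condition -/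
def CCC (P : Type) [Preorder P] : Prop :=
  ∀ A : Set P, (∀ a ∈ A, ∀ b ∈ A, (∃ r, r ≤ a ∧ r ≤ b) → a = b) → A.Countable

end Lang

section Forced

variable {P : Type} [Preorder P] {Ω : Type} [LinearOrder Ω]

/-- The relation named by `R` is a partial order contained in `≤`. -/
def FOrder (R : Ω → Ω → Set P) : Set P :=
  fand (fall fun a => meets (R a a)) (fand
    (fall fun a => fall fun b => fall fun c =>
      fimp (fand (meets (R a b)) (meets (R b c))) (meets (R a c)))
    (fall fun a => fall fun b => fimp (meets (R a b)) (fground (a ≤ b))))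

/-- The common lower bounds of any two elements are the lower bounds of finitely many elements. -/
def FMeet (R : Ω → Ω → Set P) : Set P :=
  fall fun a => fall fun b => fex fun F : Finset Ω => fall fun c =>
    fand
      (fimp (fand (meets (R c a)) (meets (R c b)))
        (fex fun d : Ω => fand (fground (d ∈ F)) (meets (R c d))))
      (fimp (fex fun d : Ω => fand (fground (d ∈ F)) (meets (R c d)))
        (fand (meets (R c a)) (meets (R c b))))

/-- The conclusion of the last clause of the principle, for the function named by `c`. -/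
def FTwin (R : Ω → Ω → Set P) (c : Ω → List (Ω × ℚ × ℚ) → Set P) : Set P :=
  fex fun β : Ω => fex fun α : Ω => fex fun l : List (Ω × ℚ × ℚ) =>
    fex fun m : List (Ω × ℚ × ℚ) =>
      fand (fground (β < α ∧ l.map Prod.snd = m.map Prod.snd))
        (fand (meets (c β l)) (fand (meets (c α m))
          (fall fun e => fall fun _ : e ∈ l.zip m => fall fun b => fall fun _ : b ∈ m =>
            fand (fimp (meets (R e.1.1 b.1)) (meets (R e.2.1 b.1)))
              (fimp (meets (R e.2.1 b.1)) (meets (R e.1.1 b.1))))))

variable (P Ω)

/-- The set of the conditions which force the principle. -/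
def ForcesAsplundPrinciple : Set P :=
  fex fun R : Ω → Ω → Set P => fand (FOrder R) (fand (FMeet R)
    (fall fun c : Ω → List (Ω × ℚ × ℚ) → Set P => fimp (IsFun c) (FTwin R c)))

end Forced

end Pool.Agent.Helper161.Asp
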