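import Mathlib
import Pool.Agent.Helper161.Asp.Statement

/-!
# The principle gives an Asplund space without the renorming of Q1
-/

set_option autoImplicit false
set_option linter.unusedSectionVars false
set_option linter.unusedVariables false

namespace Pool.Agent.Helper161.Asp

open Cardinal

section Space

open Topology ENNReal

/-- The space of bounded real functions on `Ω`. -/
abbrev EE (Ω : Type) : Type := ↥(lp (fun _ : Ω => ℝ) ∞)

variable {Ω : Type} [LinearOrder Ω] (le : Ω → Ω → Prop)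

/-- The indicator function of a set, as a bounded function. -/
noncomputable def indS (S : Set Ω) : EE Ω :=
  ⟨fun x => S.indicator (fun _ => (1 : ℝ)) x, memℓp_infty ⟨1, by
    rintro _ ⟨x, rfl⟩
    by_cases h : x ∈ S <;> simp [Set.indicator, h]⟩⟩

theorem indS_apply (S : Set Ω) (x : Ω) : (indS S : EE Ω) x = S.indicator (fun _ => (1 : ℝ)) x := rfl

theorem EE_mul_apply (f g : EE Ω) (x : Ω) : (f * g : EE Ω) x = f x * g x := by
  rw [lp.infty_coeFn_mul]; rfl

theorem EE_abs_le (f : EE Ω) (x : Ω) : |f x| ≤ ‖f‖ := lp.norm_apply_le_norm (by simp) f x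

theorem EE_norm_le (f : EE Ω) (C : ℝ) (hC : 0 ≤ C) (h : ∀ x, |f x| ≤ C) : ‖f‖ ≤ C :=
  lp.norm_le_of_forall_le hC h

/-- The set of the `le`-lower bounds of `b`. -/
def Lo (b : Ω) : Set Ω := {a | le a b}

/-- The span of the indicator functions of the sets `Lo le b`. -/
noncomputable def X0 : Submodule ℝ (EE Ω) := Submodule.span ℝ (Set.range fun b => indS (Lo le b))

/-- Its closure. -/
noncomputable def XX : Submodule ℝ (EE Ω) := (X0 le).topologicalClosure

theorem X0_le_XX : X0 le ≤ XX le := Submodule.le_topologicalClosure _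

theorem ind_mem (b : Ω) : indS (Lo le b) ∈ X0 le := Submodule.subset_span ⟨b, rfl⟩

/-- The basic vector. -/
noncomputable def vv (b : Ω) : XX le := ⟨indS (Lo le b), X0_le_XX le (ind_mem le b)⟩

/-- The evaluation functional. -/
noncomputable def ev (a : Ω) : XX le →L[ℝ] ℝ :=
  (lp.evalCLM ℝ (fun _ : Ω => ℝ) ∞ a).comp (XX le).subtypeL

theorem ev_apply (a : Ω) (x : XX le) : ev le a x = (x : EE Ω) a := rfl

instance : CompleteSpace (XX le) :=
  (Submodule.isClosed_topologicalClosure (X0 le)).completeSpace_coe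

/-- The hypotheses on `le` other than the twin clause. -/
structure Good : Prop where
  rfl' : ∀ a, le a a
  trans' : ∀ a b c, le a b → le b c → le a c
  below : ∀ a b, le a b → a ≤ b
  meet : ∀ a b, ∃ F : Finset Ω, ∀ c, (le c a ∧ le c b) ↔ ∃ d ∈ F, le c d

variable {le}

theorem union_mem_ind (A B : Set Ω) : (indS (A ∪ B) : EE Ω) = indS A + indS B - indS (A ∩ B) := by
  apply lp.ext
  funext x
  rw [lp.coeFn_sub, lp.coeFn_add, Pi.sub_apply, Pi.add_apply, indS_apply, indS_apply, indS_apply, indS_apply]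
  by_cases hA : x ∈ A <;> by_cases hB : x ∈ B <;> simp [Set.indicator, hA, hB]

theorem union_mem_empty : (indS {a : Ω | ∃ d ∈ (∅ : Finset Ω), le a d} : EE Ω) = 0 := by
  apply lp.ext
  funext x
  rw [indS_apply]
  simp

theorem union_mem_aux [WellFoundedLT Ω] (h : Good le) (b : Ω) :
    ∀ F : Finset Ω, (∀ d ∈ F, d ≤ b) → indS {a | ∃ d ∈ F, le a d} ∈ X0 le := by
  classical
  induction b using WellFoundedLT.induction with
  | ind b ih =>
    have hlt : ∀ G : Finset Ω, (∀ d ∈ G, d < b) → indS {a | ∃ d ∈ G, le a d} ∈ X0 le := by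
      intro G hG
      by_cases hne : G.Nonempty
      · exact ih (G.max' hne) (hG _ (G.max'_mem hne)) G (fun d hd => G.le_max' d hd)
      · rw [Finset.not_nonempty_iff_eq_empty] at hne
        rw [hne, union_mem_empty]
        exact zero_mem _
    intro F hF
    by_cases hb : b ∈ F
    · obtain ⟨F', hF'⟩ : ∃ F', F' = F.erase b := ⟨_, rfl⟩
      have hF'lt : ∀ d ∈ F', d < b := by
        intro d hd
        rw [hF', Finset.mem_erase] at hd
        exact lt_of_le_of_ne (hF d hd.2) hd.1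
      obtain ⟨G, hG⟩ : ∃ G : Finset Ω, G = F'.biUnion (fun e => (h.meet e b).choose) := ⟨_, rfl⟩
      have hUF : {a | ∃ d ∈ F, le a d} = {a | ∃ d ∈ F', le a d} ∪ Lo le b := by
        ext x
        simp only [Set.mem_setOf_eq, Set.mem_union, Lo]
        constructor
        · rintro ⟨d, hd, hle⟩
          by_cases hdb : d = b
          · right; rw [← hdb]; exact hle
          · left; exact ⟨d, by rw [hF']; exact Finset.mem_erase.2 ⟨hdb, hd⟩, hle⟩
        · rintro (⟨d, hd, hle⟩ | hle)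
          · rw [hF'] at hd
            exact ⟨d, Finset.mem_of_mem_erase hd, hle⟩
          · exact ⟨b, hb, hle⟩
      have hUG : {a | ∃ d ∈ F', le a d} ∩ Lo le b = {a | ∃ d ∈ G, le a d} := by
        ext x
        simp only [Set.mem_setOf_eq, Set.mem_inter_iff, Lo, hG, Finset.mem_biUnion]
        constructor
        · rintro ⟨⟨e, he, hxe⟩, hxb⟩
          obtain ⟨d, hd, hxd⟩ := ((h.meet e b).choose_spec x).1 ⟨hxe, hxb⟩
          exact ⟨d, ⟨e, he, hd⟩, hxd⟩
        · rintro ⟨d, ⟨e, he, hd⟩, hxd⟩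
          have := ((h.meet e b).choose_spec x).2 ⟨d, hd, hxd⟩
          exact ⟨⟨e, he, this.1⟩, this.2⟩
      have hGlt : ∀ g ∈ G, g < b := by
        intro g hg
        rw [hG, Finset.mem_biUnion] at hg
        obtain ⟨e, he, hge⟩ := hg
        have := ((h.meet e b).choose_spec g).2 ⟨g, hge, h.rfl' g⟩
        exact lt_of_le_of_lt (h.below g e this.1) (hF'lt e he)
      rw [hUF, union_mem_ind, hUG]
      exact sub_mem (add_mem (hlt F' hF'lt) (ind_mem le b)) (hlt G hGlt)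
    · apply hlt F
      intro d hd
      apply lt_of_le_of_ne (hF d hd)
      rintro rfl
      exact hb hd


theorem union_mem [WellFoundedLT Ω] (h : Good le) (F : Finset Ω) :
    indS {a | ∃ d ∈ F, le a d} ∈ X0 le := by
  by_cases hne : F.Nonempty
  · exact union_mem_aux h (F.max' hne) F (fun d hd => F.le_max' d hd)
  · rw [Finset.not_nonempty_iff_eq_empty] at hne
    rw [hne, union_mem_empty]
    exact zero_mem _


theorem mul_mem0 [WellFoundedLT Ω] (h : Good le) {f g : EE Ω} (hf : f ∈ X0 le) (hg : g ∈ X0 le) :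
    f * g ∈ X0 le := by
  have base : ∀ a b : Ω, (indS (Lo le a) : EE Ω) * indS (Lo le b) ∈ X0 le := by
    intro a b
    obtain ⟨F, hF⟩ := h.meet a b
    have e : (indS (Lo le a) : EE Ω) * indS (Lo le b) = indS {c | ∃ d ∈ F, le c d} := by
      ext x
      rw [EE_mul_apply, indS_apply, indS_apply, indS_apply]
      have hx := hF x
      by_cases h1 : x ∈ Lo le a
      · by_cases h2 : x ∈ Lo le b
        · have h3 : x ∈ {c | ∃ d ∈ F, le c d} := hx.1 ⟨h1, h2⟩
          rw [Set.indicator_of_mem h1, Set.indicator_of_mem h2, Set.indicator_of_mem h3]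
          norm_num
        · have h3 : x ∉ {c | ∃ d ∈ F, le c d} := fun h4 => h2 (hx.2 h4).2
          rw [Set.indicator_of_notMem h2, Set.indicator_of_notMem h3, mul_zero]
      · have h3 : x ∉ {c | ∃ d ∈ F, le c d} := fun h4 => h1 (hx.2 h4).1
        rw [Set.indicator_of_notMem h1, Set.indicator_of_notMem h3, zero_mul]
    rw [e]
    exact union_mem h F
  have step : ∀ a : Ω, ∀ g ∈ X0 le, (indS (Lo le a) : EE Ω) * g ∈ X0 le := by
    intro a g hg
    unfold X0 at hg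
    induction hg using Submodule.span_induction with
    | mem x hx =>
      obtain ⟨b, rfl⟩ := hx
      exact base a b
    | zero => rw [mul_zero]; exact Submodule.zero_mem _
    | add x y _ _ hx hy => rw [mul_add]; exact Submodule.add_mem _ hx hy
    | smul r x _ hx => rw [mul_smul_comm]; exact Submodule.smul_mem _ r hx
  have hf' := hf
  unfold X0 at hf'
  induction hf' using Submodule.span_induction with
  | mem x hx =>
    obtain ⟨b, rfl⟩ := hx
    exact step b g hg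
  | zero => rw [zero_mul]; exact Submodule.zero_mem _
  | add x y hx' hy' hx hy =>
    rw [add_mul]
    exact Submodule.add_mem _ (hx hx') (hy hy')
  | smul r x hx' hx =>
    rw [smul_mul_assoc]
    exact Submodule.smul_mem _ r (hx hx')


theorem mul_mem' [WellFoundedLT Ω] (h : Good le) {f g : EE Ω} (hf : f ∈ XX le) (hg : g ∈ XX le) :
    f * g ∈ XX le := by
  have hf' : f ∈ closure ((X0 le : Submodule ℝ (EE Ω)) : Set (EE Ω)) := by
    rw [← Submodule.topologicalClosure_coe]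
    exact hf
  have hg' : g ∈ closure ((X0 le : Submodule ℝ (EE Ω)) : Set (EE Ω)) := by
    rw [← Submodule.topologicalClosure_coe]
    exact hg
  have key : f * g ∈ closure ((X0 le : Submodule ℝ (EE Ω)) : Set (EE Ω)) :=
    map_mem_closure₂ continuous_mul hf' hg' (fun a ha b hb => mul_mem0 h ha hb)
  rw [← Submodule.topologicalClosure_coe] at key
  exact key

/-- `φ` is approximated by finite combinations of evaluations on the functions in `XX le` which
vanish outside of `S`. -/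
def Atomic (le : Ω → Ω → Prop) (S : Set Ω) : Prop :=
  ∀ (φ : XX le →L[ℝ] ℝ) (ε : ℝ), 0 < ε → ∃ c : Ω →₀ ℝ, ∀ x : XX le,
    (∀ a ∉ S, (x : EE Ω) a = 0) → |φ x - c.sum (fun a r => r * (x : EE Ω) a)| ≤ ε * ‖x‖


theorem atomic_union [WellFoundedLT Ω] (h : Good le) (F : Finset Ω)
    (hF : ∀ d ∈ F, Atomic le (Lo le d)) : Atomic le {a | ∃ d ∈ F, le a d} := by
  classical
  induction F using Finset.induction_on with
  | empty =>
    intro φ ε hε
    refine ⟨0, fun x hx => ?_⟩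
    have hx0 : x = 0 := by
      apply Subtype.ext
      apply lp.ext
      funext a
      have := hx a (by simp)
      rw [this]
      rfl
    rw [hx0]
    simp
  | insert b F hb ih =>
    intro φ ε hε
    have ih' : Atomic le {a | ∃ d ∈ F, le a d} :=
      ih (fun d hd => hF d (Finset.mem_insert_of_mem hd))
    have hb' : Atomic le (Lo le b) := hF b (Finset.mem_insert_self _ _)
    set A : Set Ω := {a | ∃ d ∈ F, le a d} with hA
    have heX : (indS A : EE Ω) ∈ XX le := X0_le_XX le (union_mem h F)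
    obtain ⟨c₁, hc₁⟩ := ih' φ (ε / 2) (half_pos hε)
    obtain ⟨c₂, hc₂⟩ := hb' φ (ε / 2) (half_pos hε)
    refine ⟨c₁.filter (· ∈ A) + c₂.filter (fun a => a ∉ A), fun x hx => ?_⟩
    set xe : XX le := ⟨(x : EE Ω) * indS A, mul_mem' h x.2 heX⟩ with hxe
    set y : XX le := x - xe with hy
    have hxe1 : ∀ a, (xe : EE Ω) a = if a ∈ A then (x : EE Ω) a else 0 := by
      intro a
      show ((x : EE Ω) * indS A : EE Ω) a = _
      rw [EE_mul_apply, indS_apply]
      by_cases ha : a ∈ A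
      · simp [ha]
      · simp [ha]
    have hy1 : ∀ a, (y : EE Ω) a = if a ∈ A then 0 else (x : EE Ω) a := by
      intro a
      have h1 : (y : EE Ω) a = (x : EE Ω) a - (xe : EE Ω) a := rfl
      rw [h1, hxe1]
      split_ifs <;> ring
    have hxe0 : ∀ a ∉ A, (xe : EE Ω) a = 0 := by
      intro a ha
      rw [hxe1, if_neg ha]
    have hy0 : ∀ a ∉ Lo le b, (y : EE Ω) a = 0 := by
      intro a ha
      rw [hy1]
      split_ifs with h1
      · rfl
      · apply hx
        rintro ⟨d, hd, had⟩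
        rcases Finset.mem_insert.1 hd with rfl | hd
        · exact ha had
        · exact h1 ⟨d, hd, had⟩
    have hnxe : ‖xe‖ ≤ ‖x‖ := by
      refine EE_norm_le (xe : EE Ω) _ (norm_nonneg _) fun a => ?_
      rw [hxe1]
      split_ifs
      · exact EE_abs_le _ _
      · rw [abs_zero]; exact norm_nonneg _
    have hny : ‖y‖ ≤ ‖x‖ := by
      refine EE_norm_le (y : EE Ω) _ (norm_nonneg _) fun a => ?_
      rw [hy1]
      split_ifs
      · rw [abs_zero]; exact norm_nonneg _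
      · exact EE_abs_le _ _
    have hs1 : (c₁.filter (· ∈ A)).sum (fun a r => r * (x : EE Ω) a) =
        c₁.sum (fun a r => r * (xe : EE Ω) a) := by
      rw [Finsupp.sum_filter_index, Finsupp.support_filter, Finset.sum_filter]
      unfold Finsupp.sum
      apply Finset.sum_congr rfl
      intro a _
      show _ = c₁ a * (xe : EE Ω) a
      rw [hxe1]
      split_ifs
      · rfl
      · rw [mul_zero]
    have hs2 : (c₂.filter (fun a => a ∉ A)).sum (fun a r => r * (x : EE Ω) a) =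
        c₂.sum (fun a r => r * (y : EE Ω) a) := by
      rw [Finsupp.sum_filter_index, Finsupp.support_filter, Finset.sum_filter]
      unfold Finsupp.sum
      apply Finset.sum_congr rfl
      intro a _
      show _ = c₂ a * (y : EE Ω) a
      rw [hy1]
      by_cases ha : a ∈ A
      · simp [ha]
      · simp [ha]
    have hs : (c₁.filter (· ∈ A) + c₂.filter (fun a => a ∉ A)).sum
        (fun a r => r * (x : EE Ω) a) =
        c₁.sum (fun a r => r * (xe : EE Ω) a) + c₂.sum (fun a r => r * (y : EE Ω) a) := by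
      rw [Finsupp.sum_add_index' (fun a => zero_mul _) (fun a r s => add_mul _ _ _), hs1, hs2]
    have hφ : φ x = φ xe + φ y := by
      rw [← map_add]
      congr 1
      rw [hy]
      abel
    rw [hs, hφ]
    have e1 := hc₁ xe hxe0
    have e2 := hc₂ y hy0
    calc |φ xe + φ y - (c₁.sum (fun a r => r * (xe : EE Ω) a) +
          c₂.sum (fun a r => r * (y : EE Ω) a))|
        = |(φ xe - c₁.sum (fun a r => r * (xe : EE Ω) a)) +
          (φ y - c₂.sum (fun a r => r * (y : EE Ω) a))| := by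
          congr 1; ring
      _ ≤ |φ xe - c₁.sum (fun a r => r * (xe : EE Ω) a)| +
          |φ y - c₂.sum (fun a r => r * (y : EE Ω) a)| := abs_add_le _ _
      _ ≤ ε / 2 * ‖xe‖ + ε / 2 * ‖y‖ := add_le_add e1 e2
      _ ≤ ε / 2 * ‖x‖ + ε / 2 * ‖x‖ := by
          apply add_le_add
          · exact mul_le_mul_of_nonneg_left hnxe (half_pos hε).le
          · exact mul_le_mul_of_nonneg_left hny (half_pos hε).le
      _ = ε * ‖x‖ := by ring


theorem concentrate (D : Set Ω) (Y : Submodule ℝ (XX le))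
    (hdense : ∀ y ∈ Y, ∀ δ > 0, ∃ z ∈ Y, ‖y - z‖ < δ ∧
      ∃ F : Finset Ω, (↑F ⊆ D) ∧ ∀ a, (¬ ∃ d ∈ F, le a d) → (z : EE Ω) a = 0)
    (φ : XX le →L[ℝ] ℝ) (ε : ℝ) (hε : 0 < ε) :
    ∃ F : Finset Ω, (↑F ⊆ D) ∧ ∀ y ∈ Y, (∀ a, (∃ d ∈ F, le a d) → (y : EE Ω) a = 0) →
      |φ y| ≤ ε * ‖y‖ := by
  classical
  set S : Set ℝ := {t | ∃ x ∈ Y, ‖x‖ ≤ 1 ∧ t = |φ x|} with hS
  have hφb : ∀ x : XX le, |φ x| ≤ ‖φ‖ * ‖x‖ := fun x => φ.le_opNorm x
  have hbdd : BddAbove S := by
    refine ⟨‖φ‖, ?_⟩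
    rintro t ⟨x, hx, hx1, rfl⟩
    calc |φ x| ≤ ‖φ‖ * ‖x‖ := hφb x
      _ ≤ ‖φ‖ * 1 := mul_le_mul_of_nonneg_left hx1 (norm_nonneg φ)
      _ = ‖φ‖ := mul_one _
  have h0S : (0 : ℝ) ∈ S := ⟨0, Y.zero_mem, by simp, by simp⟩
  have hne : S.Nonempty := ⟨0, h0S⟩
  have hs0 : 0 ≤ sSup S := le_csSup hbdd h0S
  have hsφ : sSup S ≤ ‖φ‖ := by
    refine csSup_le hne ?_
    rintro t ⟨x, hx, hx1, rfl⟩
    calc |φ x| ≤ ‖φ‖ * ‖x‖ := hφb x
      _ ≤ ‖φ‖ * 1 := mul_le_mul_of_nonneg_left hx1 (norm_nonneg φ)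
      _ = ‖φ‖ := mul_one _
  obtain ⟨t, ⟨x1, hx1Y, hx1n, rfl⟩, ht⟩ :=
    exists_lt_of_lt_csSup hne (show sSup S - ε / 2 < sSup S by linarith)
  have hscale : ∀ w ∈ Y, ∀ C : ℝ, 0 < C → ‖w‖ ≤ C → |φ w| ≤ sSup S * C := by
    intro w hw C hC hwC
    have h1 : |φ (C⁻¹ • w)| ≤ sSup S := by
      refine le_csSup hbdd ⟨C⁻¹ • w, Y.smul_mem _ hw, ?_, rfl⟩
      rw [norm_smul, norm_inv, Real.norm_of_nonneg hC.le, inv_mul_le_iff₀ hC]
      simpa using hwC
    rw [map_smul, smul_eq_mul, abs_mul, abs_of_pos (inv_pos.2 hC), inv_mul_le_iff₀ hC] at h1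
    linarith
  have hN : 0 ≤ ‖φ‖ := norm_nonneg φ
  obtain ⟨δ, hδ, hδε⟩ : ∃ δ : ℝ, 0 < δ ∧ 2 * ‖φ‖ * δ ≤ ε / 2 := by
    refine ⟨ε / (4 * (‖φ‖ + 1)), by positivity, ?_⟩
    rw [mul_div_assoc', div_le_div_iff₀ (by positivity) (by norm_num)]
    nlinarith
  obtain ⟨z, hzY, hz, F, hFD, hF⟩ := hdense x1 hx1Y δ hδ
  refine ⟨F, hFD, fun y hy hyA => ?_⟩
  rcases eq_or_ne y 0 with rfl | hy0
  · simp
  have hr : 0 < ‖y‖ := norm_pos_iff.2 hy0
  have hzn : ‖z‖ ≤ 1 + δ := by
    have h1 : ‖z‖ ≤ ‖x1‖ + ‖x1 - z‖ := by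
      have := norm_sub_le x1 (x1 - z)
      simpa using this
    linarith
  have hφz : |φ x1| - ‖φ‖ * δ ≤ |φ z| := by
    have h1 : |φ (x1 - z)| ≤ ‖φ‖ * δ :=
      (hφb _).trans (mul_le_mul_of_nonneg_left hz.le hN)
    have h2 : |φ x1| ≤ |φ (x1 - z)| + |φ z| := by
      have h3 := abs_add_le (φ (x1 - z)) (φ z)
      rw [← map_add] at h3
      simpa using h3
    linarith
  -- the combination
  have hcomb : ∀ τ : ℝ, |τ| = 1 → |φ z + τ * (‖y‖⁻¹ * φ y)| ≤ sSup S * (1 + δ) := by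
    intro τ hτ
    have hw : z + (τ * ‖y‖⁻¹) • y ∈ Y := Y.add_mem hzY (Y.smul_mem _ hy)
    have hwn : ‖z + (τ * ‖y‖⁻¹) • y‖ ≤ 1 + δ := by
      refine EE_norm_le ((z + (τ * ‖y‖⁻¹) • y : XX le) : EE Ω) (1 + δ) (by linarith) fun a => ?_
      have e1 : ((z + (τ * ‖y‖⁻¹) • y : XX le) : EE Ω) a
          = (z : EE Ω) a + (τ * ‖y‖⁻¹) * (y : EE Ω) a := rfl
      rw [e1]
      by_cases ha : ∃ d ∈ F, le a d
      · rw [hyA a ha, mul_zero, add_zero]
        exact (EE_abs_le _ a).trans hzn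
      · rw [hF a ha, zero_add, abs_mul, abs_mul, hτ, one_mul, abs_of_pos (inv_pos.2 hr)]
        have h4 : |(y : EE Ω) a| ≤ ‖y‖ := EE_abs_le _ a
        have h5 : ‖y‖⁻¹ * |(y : EE Ω) a| ≤ 1 := by
          rw [inv_mul_le_iff₀ hr]; simpa using h4
        linarith
    have h6 := hscale _ hw (1 + δ) (by linarith) hwn
    have e2 : φ (z + (τ * ‖y‖⁻¹) • y) = φ z + τ * (‖y‖⁻¹ * φ y) := by
      rw [map_add, map_smul, smul_eq_mul]; ring
    rwa [e2] at h6
  have hsum : |φ z| + ‖y‖⁻¹ * |φ y| ≤ sSup S * (1 + δ) := by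
    have hp := hcomb 1 (by simp)
    have hm := hcomb (-1) (by simp)
    have e3 : ‖y‖⁻¹ * |φ y| = |‖y‖⁻¹ * φ y| := by
      rw [abs_mul, abs_of_pos (inv_pos.2 hr)]
    rw [e3]
    rcases abs_cases (φ z) with ⟨h1, _⟩ | ⟨h1, _⟩ <;>
      rcases abs_cases (‖y‖⁻¹ * φ y) with ⟨h2, _⟩ | ⟨h2, _⟩ <;>
      rw [h1, h2] <;>
      rcases abs_le.1 hp with ⟨hp1, hp2⟩ <;>
      rcases abs_le.1 hm with ⟨hm1, hm2⟩ <;> linarith
  have hfin : ‖y‖⁻¹ * |φ y| ≤ ε := by
    have h7 : sSup S * δ ≤ ‖φ‖ * δ := mul_le_mul_of_nonneg_right hsφ hδ.le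
    nlinarith
  rw [inv_mul_le_iff₀ hr] at hfin
  linarith


theorem atomic_of [WellFoundedLT Ω] (h : Good le) (D : Set Ω)
    (hD : ∀ d ∈ D, Atomic le (Lo le d)) (Y : Submodule ℝ (XX le))
    (hmul : ∀ y ∈ Y, ∀ F : Finset Ω, ∀ z : XX le,
      (z : EE Ω) = (y : EE Ω) * indS {a | ∃ d ∈ F, le a d} → z ∈ Y)
    (hdense : ∀ y ∈ Y, ∀ δ > 0, ∃ z ∈ Y, ‖y - z‖ < δ ∧
      ∃ F : Finset Ω, (↑F ⊆ D) ∧ ∀ a, (¬ ∃ d ∈ F, le a d) → (z : EE Ω) a = 0)
    (φ : XX le →L[ℝ] ℝ) (ε : ℝ) (hε : 0 < ε) :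
    ∃ c : Ω →₀ ℝ, ∀ y ∈ Y, |φ y - c.sum (fun a r => r * (y : EE Ω) a)| ≤ ε * ‖y‖ := by
  classical
  obtain ⟨F, hFD, hF⟩ := concentrate D Y hdense φ (ε / 2) (half_pos hε)
  obtain ⟨c, hc⟩ := atomic_union h F (fun d hd => hD d (hFD hd)) φ (ε / 2) (half_pos hε)
  obtain ⟨A, hA⟩ : ∃ A : Set Ω, A = {a | ∃ d ∈ F, le a d} := ⟨_, rfl⟩
  rw [← hA] at hc
  refine ⟨c.filter (· ∈ A), ?_⟩
  intro y hy
  have heX : indS A ∈ XX le := by
    rw [hA]; exact X0_le_XX le (union_mem h F)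
  have hyeX : (y : EE Ω) * indS A ∈ XX le := mul_mem' h y.2 heX
  obtain ⟨z, hz⟩ : ∃ z : XX le, (z : EE Ω) = (y : EE Ω) * indS A := ⟨⟨_, hyeX⟩, rfl⟩
  have hzY : z ∈ Y := hmul y hy F z (by rw [hz, hA])
  have hval : ∀ a, (z : EE Ω) a = if a ∈ A then (y : EE Ω) a else 0 := by
    intro a
    rw [hz, EE_mul_apply, indS_apply]
    by_cases ha : a ∈ A <;> simp [ha]
  have hval2 : ∀ a, ((y - z : XX le) : EE Ω) a = if a ∈ A then 0 else (y : EE Ω) a := by
    intro a
    have h1 : ((y - z : XX le) : EE Ω) a = (y : EE Ω) a - (z : EE Ω) a := rfl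
    rw [h1, hval a]
    by_cases ha : a ∈ A <;> simp [ha]
  have hn1 : ‖z‖ ≤ ‖y‖ := by
    have : ‖(z : EE Ω)‖ ≤ ‖(y : EE Ω)‖ := by
      apply EE_norm_le _ _ (norm_nonneg _)
      intro a
      rw [hval a]
      by_cases ha : a ∈ A
      · simp only [ha, if_true]; exact EE_abs_le _ _
      · simp only [ha, if_false, abs_zero]; exact norm_nonneg _
    exact this
  have hn2 : ‖y - z‖ ≤ ‖y‖ := by
    have : ‖((y - z : XX le) : EE Ω)‖ ≤ ‖(y : EE Ω)‖ := by
      apply EE_norm_le _ _ (norm_nonneg _)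
      intro a
      rw [hval2 a]
      by_cases ha : a ∈ A
      · simp only [ha, if_true, abs_zero]; exact norm_nonneg _
      · simp only [ha, if_false]; exact EE_abs_le _ _
    exact this
  have h1 := hF (y - z) (Y.sub_mem hy hzY) (by
    intro a ha
    have ha' : a ∈ A := by rw [hA]; exact ha
    rw [hval2 a, if_pos ha'])
  have h2 := hc z (by
    intro a ha
    rw [hval a, if_neg ha])
  have h3 : (c.filter (· ∈ A)).sum (fun a r => r * (y : EE Ω) a)
      = c.sum (fun a r => r * (z : EE Ω) a) := by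
    unfold Finsupp.sum
    rw [Finsupp.support_filter, Finset.sum_filter]
    apply Finset.sum_congr rfl
    intro a _
    have hv := hval a
    show (if a ∈ A then (Finsupp.filter (fun x => x ∈ A) c) a * (y : EE Ω) a else 0)
      = c a * (z : EE Ω) a
    rw [hv]
    by_cases ha : a ∈ A
    · rw [if_pos ha, if_pos ha, Finsupp.filter_apply_pos _ _ ha]
    · rw [if_neg ha, if_neg ha, mul_zero]
  rw [h3]
  have h4 : φ y = φ (y - z) + φ z := by rw [← map_add]; congr 1; abel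
  have hny : 0 ≤ ‖y‖ := norm_nonneg _
  calc |φ y - c.sum (fun a r => r * (z : EE Ω) a)|
      = |φ (y - z) + (φ z - c.sum (fun a r => r * (z : EE Ω) a))| := by rw [h4]; congr 1; ring
    _ ≤ |φ (y - z)| + |φ z - c.sum (fun a r => r * (z : EE Ω) a)| := abs_add_le _ _
    _ ≤ ε / 2 * ‖y - z‖ + ε / 2 * ‖z‖ := add_le_add h1 h2
    _ ≤ ε / 2 * ‖y‖ + ε / 2 * ‖y‖ := by
        apply add_le_add
        · exact mul_le_mul_of_nonneg_left hn2 (half_pos hε).le
        · exact mul_le_mul_of_nonneg_left hn1 (half_pos hε).le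
    _ = ε * ‖y‖ := by ring

theorem vanish_aux (h : Good le) (b : Ω) (s : EE Ω) (hs : s ∈ X0 le) :
    ∃ F : Finset Ω, (∀ d ∈ F, le d b ∧ d ≠ b) ∧
      ∀ a, le a b → (¬ ∃ d ∈ F, le a d) → (s : EE Ω) a = (s : EE Ω) b := by
  classical
  refine Submodule.span_induction (p := fun (s : EE Ω) _ => ∃ F : Finset Ω, (∀ d ∈ F, le d b ∧ d ≠ b) ∧
      ∀ a, le a b → (¬ ∃ d ∈ F, le a d) → (s : EE Ω) a = (s : EE Ω) b) ?_ ?_ ?_ ?_ hs
  · rintro _ ⟨e, rfl⟩
    by_cases hbe : le b e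
    · refine ⟨∅, by simp, ?_⟩
      intro a hab _
      have hae : le a e := h.trans' _ _ _ hab hbe
      rw [indS_apply, indS_apply]
      simp [Set.indicator, Lo, hbe, hae]
    · obtain ⟨F, hF⟩ := h.meet e b
      refine ⟨F, ?_, ?_⟩
      · intro d hd
        have h1 := (hF d).2 ⟨d, hd, h.rfl' d⟩
        refine ⟨h1.2, ?_⟩
        rintro rfl
        exact hbe h1.1
      · intro a hab hna
        have hae : ¬ le a e := fun hae => hna ((hF a).1 ⟨hae, hab⟩)
        rw [indS_apply, indS_apply]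
        simp [Set.indicator, Lo, hbe, hae]
  · refine ⟨∅, by simp, ?_⟩
    intro a _ _
    rw [lp.coeFn_zero]
    rfl
  · rintro x y _ _ ⟨F, hF, hF'⟩ ⟨G, hG, hG'⟩
    refine ⟨F ∪ G, ?_, ?_⟩
    · intro d hd
      rcases Finset.mem_union.1 hd with hd | hd
      · exact hF d hd
      · exact hG d hd
    · intro a hab hna
      have h1 := hF' a hab (fun ⟨d, hd, hd'⟩ => hna ⟨d, Finset.mem_union_left _ hd, hd'⟩)
      have h2 := hG' a hab (fun ⟨d, hd, hd'⟩ => hna ⟨d, Finset.mem_union_right _ hd, hd'⟩)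
      rw [lp.coeFn_add, Pi.add_apply, Pi.add_apply, h1, h2]
  · rintro c x _ ⟨F, hF, hF'⟩
    refine ⟨F, hF, ?_⟩
    intro a hab hna
    rw [lp.coeFn_smul, Pi.smul_apply, Pi.smul_apply, hF' a hab hna]

theorem vanish_dense [WellFoundedLT Ω] (h : Good le) (b : Ω) (y : XX le)
    (hyb : (y : EE Ω) b = 0) (hy : ∀ a, ¬ le a b → (y : EE Ω) a = 0) (δ : ℝ) (hδ : 0 < δ) :
    ∃ z : XX le, (z : EE Ω) b = 0 ∧ (∀ a, ¬ le a b → (z : EE Ω) a = 0) ∧ ‖y - z‖ < δ ∧
      ∃ F : Finset Ω, (∀ d ∈ F, le d b ∧ d ≠ b) ∧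
        ∀ a, (¬ ∃ d ∈ F, le a d) → (z : EE Ω) a = 0 := by
  classical
  have hycl : (y : EE Ω) ∈ closure ((X0 le : Submodule ℝ (EE Ω)) : Set (EE Ω)) := by
    rw [← Submodule.topologicalClosure_coe]
    exact y.2
  obtain ⟨s, hs, hds⟩ := Metric.mem_closure_iff.1 hycl (δ / 4) (by positivity)
  rw [dist_eq_norm] at hds
  have hs0 : s ∈ X0 le := hs
  obtain ⟨F, hF, hF'⟩ := vanish_aux h b s hs0
  have hz0 : s * indS (Lo le b) - (s b) • indS (Lo le b) ∈ X0 le :=
    (X0 le).sub_mem (mul_mem0 h hs0 (ind_mem le b)) ((X0 le).smul_mem _ (ind_mem le b))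
  have hval : ∀ a, (s * indS (Lo le b) - (s b) • indS (Lo le b) : EE Ω) a =
      if le a b then s a - s b else 0 := by
    intro a
    rw [lp.coeFn_sub, Pi.sub_apply, EE_mul_apply, lp.coeFn_smul, Pi.smul_apply, indS_apply]
    by_cases hab : le a b
    · simp [Set.indicator, Lo, hab]
    · simp [Set.indicator, Lo, hab]
  refine ⟨⟨s * indS (Lo le b) - (s b) • indS (Lo le b), X0_le_XX le hz0⟩, ?_, ?_, ?_, F, hF, ?_⟩
  · change (s * indS (Lo le b) - (s b) • indS (Lo le b) : EE Ω) b = 0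
    rw [hval, if_pos (h.rfl' b), sub_self]
  · intro a ha
    change (s * indS (Lo le b) - (s b) • indS (Lo le b) : EE Ω) a = 0
    rw [hval, if_neg ha]
  · change ‖(y : EE Ω) - (s * indS (Lo le b) - (s b) • indS (Lo le b))‖ < δ
    have hle : ‖(y : EE Ω) - (s * indS (Lo le b) - (s b) • indS (Lo le b))‖ ≤ δ / 2 := by
      apply EE_norm_le _ _ (by positivity)
      intro a
      have e1 : ((y : EE Ω) - (s * indS (Lo le b) - (s b) • indS (Lo le b)) : EE Ω) a =
          (y : EE Ω) a - (if le a b then s a - s b else 0) := by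
        rw [lp.coeFn_sub, Pi.sub_apply, hval]
      rw [e1]
      have h1 : |(y : EE Ω) a - s a| < δ / 4 := by
        have := EE_abs_le ((y : EE Ω) - s) a
        rw [lp.coeFn_sub, Pi.sub_apply] at this
        exact lt_of_le_of_lt this hds
      have h2 : |(y : EE Ω) b - s b| < δ / 4 := by
        have := EE_abs_le ((y : EE Ω) - s) b
        rw [lp.coeFn_sub, Pi.sub_apply] at this
        exact lt_of_le_of_lt this hds
      rw [hyb] at h2
      by_cases hab : le a b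
      · rw [if_pos hab]
        rw [abs_lt] at h1 h2
        rw [abs_le]
        constructor <;> linarith [h1.1, h1.2, h2.1, h2.2]
      · rw [if_neg hab, hy a hab]
        simp
        positivity
    linarith
  · intro a ha
    change (s * indS (Lo le b) - (s b) • indS (Lo le b) : EE Ω) a = 0
    rw [hval]
    by_cases hab : le a b
    · rw [if_pos hab, hF' a hab ha, sub_self]
    · rw [if_neg hab]


theorem atomic_lo [WellFoundedLT Ω] (h : Good le) (b : Ω) : Atomic le (Lo le b) := by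
  induction b using WellFoundedLT.induction with
  | ind b ih =>
    obtain ⟨Y, hY⟩ : ∃ Y : Submodule ℝ (XX le), ∀ y : XX le, y ∈ Y ↔
        (ev le b y = 0 ∧ ∀ a, ¬ le a b → ev le a y = 0) := by
      refine ⟨{ carrier := {y | ev le b y = 0 ∧ ∀ a, ¬ le a b → ev le a y = 0}
                add_mem' := ?_
                zero_mem' := ?_
                smul_mem' := ?_ }, fun y => Iff.rfl⟩
      · rintro x y ⟨h1, h2⟩ ⟨h3, h4⟩
        exact ⟨by rw [map_add, h1, h3, add_zero],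
          fun a ha => by rw [map_add, h2 a ha, h4 a ha, add_zero]⟩
      · exact ⟨map_zero _, fun a _ => map_zero _⟩
      · rintro c x ⟨h1, h2⟩
        exact ⟨by rw [map_smul, h1, smul_zero], fun a ha => by rw [map_smul, h2 a ha, smul_zero]⟩
    have hD : ∀ d ∈ {d | le d b ∧ d ≠ b}, Atomic le (Lo le d) := by
      rintro d ⟨hd1, hd2⟩
      exact ih d (lt_of_le_of_ne (h.below _ _ hd1) hd2)
    have hmul : ∀ y ∈ Y, ∀ F : Finset Ω, ∀ z : XX le,
        (z : EE Ω) = (y : EE Ω) * indS {a | ∃ d ∈ F, le a d} → z ∈ Y := by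
      intro y hy F z hz
      rw [hY] at hy ⊢
      obtain ⟨h1, h2⟩ := hy
      refine ⟨?_, ?_⟩
      · rw [ev_apply, hz, EE_mul_apply, ← ev_apply le b y, h1, zero_mul]
      · intro a ha
        rw [ev_apply, hz, EE_mul_apply, ← ev_apply le a y, h2 a ha, zero_mul]
    have hdense : ∀ y ∈ Y, ∀ δ > 0, ∃ z ∈ Y, ‖y - z‖ < δ ∧
        ∃ F : Finset Ω, ((F : Set Ω) ⊆ {d | le d b ∧ d ≠ b}) ∧
          ∀ a, (¬ ∃ d ∈ F, le a d) → (z : EE Ω) a = 0 := by
      intro y hy δ hδ
      rw [hY] at hy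
      obtain ⟨z, hz1, hz2, hz3, F, hF1, hF2⟩ := vanish_dense h b y hy.1 hy.2 δ hδ
      refine ⟨z, (hY z).mpr ⟨hz1, hz2⟩, hz3, F, ?_, hF2⟩
      intro d hd
      exact hF1 d hd
    intro φ ε hε
    obtain ⟨c, hc⟩ := atomic_of h {d | le d b ∧ d ≠ b} hD Y hmul hdense φ (ε / 2) (by positivity)
    obtain ⟨S, hS⟩ : ∃ S : ℝ, S = c.sum (fun a r => r * (indS (Lo le b) : EE Ω) a) := ⟨_, rfl⟩
    refine ⟨c + Finsupp.single b (φ (vv le b) - S), ?_⟩
    intro x hx
    have hvb : ∀ a, ev le a (vv le b) = (indS (Lo le b) : EE Ω) a := fun a => rfl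
    have hvb1 : ev le b (vv le b) = 1 := by
      rw [hvb, indS_apply, Set.indicator_of_mem]
      exact h.rfl' b
    have hvb0 : ∀ a, ¬ le a b → ev le a (vv le b) = 0 := by
      intro a ha
      rw [hvb, indS_apply, Set.indicator_of_notMem]
      exact ha
    obtain ⟨y, hy⟩ : ∃ y : XX le, y = x - (ev le b x) • vv le b := ⟨_, rfl⟩
    have hye : ∀ a, ev le a y = ev le a x - ev le b x * (indS (Lo le b) : EE Ω) a := by
      intro a
      rw [hy, map_sub, map_smul, hvb, smul_eq_mul]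
    have hyY : y ∈ Y := by
      rw [hY]
      refine ⟨?_, ?_⟩
      · rw [hye, ← hvb, hvb1, mul_one, sub_self]
      · intro a ha
        rw [hye, ← hvb, hvb0 a ha, mul_zero, sub_zero]
        exact hx a ha
    have hxb : |ev le b x| ≤ ‖x‖ := EE_abs_le (x : EE Ω) b
    have hvn : ‖vv le b‖ ≤ 1 := by
      apply EE_norm_le _ 1 zero_le_one
      intro a
      change |(indS (Lo le b) : EE Ω) a| ≤ 1
      rw [indS_apply]
      by_cases ha : a ∈ Lo le b
      · rw [Set.indicator_of_mem ha]; simp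
      · rw [Set.indicator_of_notMem ha]; simp
    have hyn : ‖y‖ ≤ 2 * ‖x‖ := by
      rw [hy]
      calc ‖x - (ev le b x) • vv le b‖ ≤ ‖x‖ + ‖(ev le b x) • vv le b‖ := norm_sub_le _ _
        _ = ‖x‖ + |ev le b x| * ‖vv le b‖ := by rw [norm_smul, Real.norm_eq_abs]
        _ ≤ ‖x‖ + ‖x‖ * 1 := by
            have := mul_le_mul hxb hvn (norm_nonneg _) (norm_nonneg x)
            linarith
        _ = 2 * ‖x‖ := by ring
    have h1 := hc y hyY
    have h2 : φ x = φ y + ev le b x * φ (vv le b) := by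
      rw [hy, map_sub, map_smul, smul_eq_mul]; ring
    have h3 : (c + Finsupp.single b (φ (vv le b) - S)).sum (fun a r => r * (x : EE Ω) a)
        = c.sum (fun a r => r * (x : EE Ω) a) + (φ (vv le b) - S) * (x : EE Ω) b := by
      rw [Finsupp.sum_add_index' (fun a => zero_mul _) (fun a b₁ b₂ => add_mul _ _ _),
        Finsupp.sum_single_index (zero_mul _)]
    have h4 : c.sum (fun a r => r * (y : EE Ω) a)
        = c.sum (fun a r => r * (x : EE Ω) a) - S * (x : EE Ω) b := by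
      rw [hS, Finsupp.sum, Finsupp.sum, Finsupp.sum, Finset.sum_mul, ← Finset.sum_sub_distrib]
      apply Finset.sum_congr rfl
      intro a _
      have h5 := hye a
      rw [ev_apply, ev_apply, ev_apply] at h5
      rw [h5]
      ring
    have h5 : φ x - (c + Finsupp.single b (φ (vv le b) - S)).sum (fun a r => r * (x : EE Ω) a)
        = φ y - c.sum (fun a r => r * (y : EE Ω) a) := by
      rw [h3, h4, h2, ev_apply]
      ring
    rw [h5]
    calc |φ y - c.sum (fun a r => r * (y : EE Ω) a)| ≤ ε / 2 * ‖y‖ := h1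
      _ ≤ ε / 2 * (2 * ‖x‖) := mul_le_mul_of_nonneg_left hyn (by positivity)
      _ = ε * ‖x‖ := by ring

theorem ev_dense_supp (f : EE Ω) (hf : f ∈ X0 le) :
    ∃ F : Finset Ω, ∀ a, (¬ ∃ d ∈ F, le a d) → f a = 0 := by
  classical
  unfold X0 at hf
  induction hf using Submodule.span_induction with
  | mem x hx =>
    obtain ⟨b, rfl⟩ := hx
    refine ⟨{b}, fun a ha => ?_⟩
    simp only
    rw [indS_apply, Set.indicator_of_notMem]
    intro hab
    exact ha ⟨b, Finset.mem_singleton_self b, hab⟩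
  | zero => exact ⟨∅, fun a _ => rfl⟩
  | add x y _ _ hx hy =>
    obtain ⟨F, hF⟩ := hx
    obtain ⟨G, hG⟩ := hy
    refine ⟨F ∪ G, fun a ha => ?_⟩
    have h1 : x a = 0 := hF a (fun ⟨d, hd, hle⟩ => ha ⟨d, Finset.mem_union_left _ hd, hle⟩)
    have h2 : y a = 0 := hG a (fun ⟨d, hd, hle⟩ => ha ⟨d, Finset.mem_union_right _ hd, hle⟩)
    have h3 : (x + y : EE Ω) a = x a + y a := rfl
    rw [h3, h1, h2, add_zero]
  | smul r x _ hx =>
    obtain ⟨F, hF⟩ := hx
    refine ⟨F, fun a ha => ?_⟩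
    have h3 : (r • x : EE Ω) a = r • x a := rfl
    rw [h3, hF a ha, smul_zero]


theorem ev_dense [WellFoundedLT Ω] (h : Good le) (φ : XX le →L[ℝ] ℝ) (ε : ℝ) (hε : 0 < ε) :
    ∃ c : Ω →₀ ℝ, ‖φ - c.sum (fun a r => r • ev le a)‖ ≤ ε := by
  obtain ⟨c, hc⟩ := atomic_of h Set.univ (fun d _ => atomic_lo h d) ⊤
    (fun _ _ _ _ _ => Submodule.mem_top) (fun y _ δ hδ => by
      have hy : (y : EE Ω) ∈ closure ((X0 le : Submodule ℝ (EE Ω)) : Set (EE Ω)) := by
        rw [← Submodule.topologicalClosure_coe]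
        exact y.2
      obtain ⟨f, hf, hyf⟩ := Metric.mem_closure_iff.1 hy δ hδ
      obtain ⟨F, hF⟩ := ev_dense_supp f hf
      refine ⟨⟨f, X0_le_XX le hf⟩, Submodule.mem_top, ?_, F, Set.subset_univ _, hF⟩
      rw [dist_eq_norm] at hyf
      exact hyf) φ ε hε
  refine ⟨c, ContinuousLinearMap.opNorm_le_bound _ hε.le (fun x => ?_)⟩
  have h1 := hc x Submodule.mem_top
  have h2 : (φ - c.sum (fun a r => r • ev le a)) x
      = φ x - c.sum (fun a r => r * (x : EE Ω) a) := by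
    unfold Finsupp.sum
    rw [sub_apply, sum_apply]
    congr 1
  rw [h2, Real.norm_eq_abs]
  exact h1

/-- The vector coded by a labelled list. -/
noncomputable def vec (le : Ω → Ω → Prop) (l : List (Ω × ℚ × ℚ)) : XX le :=
  (l.map fun e => (e.2.1 : ℝ) • vv le e.1).sum

/-- The functional coded by a labelled list. -/
noncomputable def fnl (le : Ω → Ω → Prop) (l : List (Ω × ℚ × ℚ)) : XX le →L[ℝ] ℝ :=
  (l.map fun e => (e.2.2 : ℝ) • ev le e.1).sum

theorem approx_both_aux {V : Type} [NormedAddCommGroup V] [NormedSpace ℝ V] {Ω' : Type} (v : Ω' → V)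
    (hv : ∀ a, ‖v a‖ ≤ 1) (s : Finset Ω') (f : Ω' → ℝ) (η : ℝ) (hη : 0 < η) :
    ∃ L : List (Ω' × ℚ), ‖∑ a ∈ s, f a • v a - (L.map fun e => (e.2 : ℝ) • v e.1).sum‖ ≤ η := by
  classical
  induction s using Finset.induction_on generalizing η with
  | empty => exact ⟨[], by simpa using hη.le⟩
  | insert a s ha ih =>
    obtain ⟨L, hL⟩ := ih (η / 2) (by positivity)
    obtain ⟨q, hq⟩ := exists_rat_near (f a) (half_pos hη)
    refine ⟨(a, q) :: L, ?_⟩
    rw [Finset.sum_insert ha, List.map_cons, List.sum_cons]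
    have h1 : f a • v a + ∑ a ∈ s, f a • v a - ((q : ℝ) • v a + (L.map fun e => (e.2 : ℝ) • v e.1).sum) =
        (f a - q) • v a + (∑ a ∈ s, f a • v a - (L.map fun e => (e.2 : ℝ) • v e.1).sum) := by
      rw [sub_smul]; abel
    show ‖f a • v a + ∑ a ∈ s, f a • v a - ((q : ℝ) • v a + (L.map fun e => (e.2 : ℝ) • v e.1).sum)‖ ≤ η
    rw [h1]
    have h2 : ‖(f a - q) • v a‖ ≤ η / 2 := by
      rw [norm_smul, Real.norm_eq_abs]
      calc |f a - q| * ‖v a‖ ≤ |f a - q| * 1 := mul_le_mul_of_nonneg_left (hv a) (abs_nonneg _)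
        _ ≤ η / 2 := by rw [mul_one]; exact hq.le
    calc _ ≤ ‖(f a - q) • v a‖ + ‖∑ a ∈ s, f a • v a - (L.map fun e => (e.2 : ℝ) • v e.1).sum‖ :=
          norm_add_le _ _
      _ ≤ η / 2 + η / 2 := add_le_add h2 hL
      _ = η := add_halves η

theorem approx_both_ev (a : Ω) : ‖ev le a‖ ≤ 1 := by
  refine ContinuousLinearMap.opNorm_le_bound _ zero_le_one (fun x => ?_)
  rw [ev_apply, one_mul, Real.norm_eq_abs]
  exact EE_abs_le _ _

theorem approx_both_vv (a : Ω) : ‖vv le a‖ ≤ 1 := by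
  show ‖indS (Lo le a)‖ ≤ 1
  refine EE_norm_le _ 1 zero_le_one (fun x => ?_)
  rw [indS_apply]
  by_cases h : x ∈ Lo le a <;> simp [Set.indicator, h]

theorem approx_both_vec_append (l m : List (Ω × ℚ × ℚ)) : vec le (l ++ m) = vec le l + vec le m := by
  unfold vec
  rw [List.map_append, List.sum_append]

theorem approx_both_fnl_append (l m : List (Ω × ℚ × ℚ)) : fnl le (l ++ m) = fnl le l + fnl le m := by
  unfold fnl
  rw [List.map_append, List.sum_append]

theorem approx_both_v1 (L : List (Ω × ℚ)) : vec le (L.map fun e => (e.1, e.2, 0)) =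
    (L.map fun e => (e.2 : ℝ) • vv le e.1).sum := by
  unfold vec
  rw [List.map_map]
  rfl

theorem approx_both_f1 (L : List (Ω × ℚ)) : fnl le (L.map fun e => (e.1, e.2, 0)) = 0 := by
  unfold fnl
  rw [List.map_map]
  refine List.sum_eq_zero ?_
  intro x hx
  rw [List.mem_map] at hx
  obtain ⟨e, _, rfl⟩ := hx
  show ((0 : ℚ) : ℝ) • ev le e.1 = 0
  rw [Rat.cast_zero, zero_smul]

theorem approx_both_f2 (L : List (Ω × ℚ)) : fnl le (L.map fun e => (e.1, 0, e.2)) =
    (L.map fun e => (e.2 : ℝ) • ev le e.1).sum := by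
  unfold fnl
  rw [List.map_map]
  rfl

theorem approx_both_v2 (L : List (Ω × ℚ)) : vec le (L.map fun e => (e.1, 0, e.2)) = 0 := by
  unfold vec
  rw [List.map_map]
  refine List.sum_eq_zero ?_
  intro x hx
  rw [List.mem_map] at hx
  obtain ⟨e, _, rfl⟩ := hx
  show ((0 : ℚ) : ℝ) • vv le e.1 = 0
  rw [Rat.cast_zero, zero_smul]


theorem approx_both [WellFoundedLT Ω] (h : Good le) (x : XX le) (φ : XX le →L[ℝ] ℝ) (δ : ℝ)
    (hδ : 0 < δ) : ∃ l : List (Ω × ℚ × ℚ), ‖x - vec le l‖ ≤ δ ∧ ‖φ - fnl le l‖ ≤ δ := by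
  classical
  -- functional part
  obtain ⟨c, hc⟩ := ev_dense h φ (δ / 2) (half_pos hδ)
  obtain ⟨L2, hL2⟩ := approx_both_aux (fun a => ev le a) approx_both_ev c.support c (δ / 2) (half_pos hδ)
  -- vector part
  have hx : (x : EE Ω) ∈ closure (X0 le : Set (EE Ω)) := x.2
  obtain ⟨y, hy, hxy⟩ := Metric.mem_closure_iff.mp hx (δ / 2) (half_pos hδ)
  obtain ⟨d, hd⟩ := (Finsupp.mem_span_range_iff_exists_finsupp (R := ℝ)).mp hy
  obtain ⟨L1, hL1⟩ := approx_both_aux (fun a => vv le a) approx_both_vv d.support d (δ / 2) (half_pos hδ)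
  refine ⟨(L1.map fun e => (e.1, e.2, 0)) ++ (L2.map fun e => (e.1, 0, e.2)), ?_, ?_⟩
  · rw [approx_both_vec_append, approx_both_v2, add_zero, approx_both_v1]
    have h2 : ‖x - ∑ a ∈ d.support, d a • vv le a‖ ≤ δ / 2 := by
      have h3 : ((∑ a ∈ d.support, d a • vv le a : XX le) : EE Ω) = y := by
        rw [← hd]
        rw [Finsupp.sum, AddSubmonoidClass.coe_finset_sum]
        rfl
      show ‖((x - ∑ a ∈ d.support, d a • vv le a : XX le) : EE Ω)‖ ≤ δ / 2
      rw [AddSubgroupClass.coe_sub, h3, ← dist_eq_norm]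
      exact hxy.le
    have h4 : x - (L1.map fun e => (e.2 : ℝ) • vv le e.1).sum =
        (x - ∑ a ∈ d.support, d a • vv le a) +
        (∑ a ∈ d.support, d a • vv le a - (L1.map fun e => (e.2 : ℝ) • vv le e.1).sum) := by abel
    rw [h4]
    calc _ ≤ ‖x - ∑ a ∈ d.support, d a • vv le a‖ +
          ‖∑ a ∈ d.support, d a • vv le a - (L1.map fun e => (e.2 : ℝ) • vv le e.1).sum‖ := norm_add_le _ _
      _ ≤ δ / 2 + δ / 2 := add_le_add h2 hL1
      _ = δ := add_halves δ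
  · rw [approx_both_fnl_append, approx_both_f1, zero_add, approx_both_f2]
    have h4 : φ - (L2.map fun e => (e.2 : ℝ) • ev le e.1).sum =
        (φ - c.sum (fun a r => r • ev le a)) +
        (∑ a ∈ c.support, c a • ev le a - (L2.map fun e => (e.2 : ℝ) • ev le e.1).sum) := by
      rw [Finsupp.sum]; abel
    rw [h4]
    calc _ ≤ ‖φ - c.sum (fun a r => r • ev le a)‖ +
          ‖∑ a ∈ c.support, c a • ev le a - (L2.map fun e => (e.2 : ℝ) • ev le e.1).sum‖ :=
            ContinuousLinearMap.opNorm_add_le _ _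
      _ ≤ δ / 2 + δ / 2 := add_le_add hc hL2
      _ = δ := add_halves δ

theorem ev_vec_aux (a a' : Ω) (m : List (Ω × ℚ × ℚ)) (h : ∀ b ∈ m, (le a b.1 ↔ le a' b.1)) :
    ev le a (vec le m) = ev le a' (vec le m) := by
  induction m with
  | nil => simp [vec]
  | cons b m ih =>
    have h1 : vec le (b :: m) = (b.2.1 : ℝ) • vv le b.1 + vec le m := by
      simp [vec]
    have h2 : ev le a (vv le b.1) = ev le a' (vv le b.1) := by
      rw [ev_apply, ev_apply]
      change (indS (Lo le b.1) : EE Ω) a = (indS (Lo le b.1) : EE Ω) a'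
      rw [indS_apply, indS_apply]
      have h3 := h b (List.mem_cons_self)
      by_cases h4 : le a b.1
      · rw [Set.indicator_of_mem (show a ∈ Lo le b.1 from h4),
          Set.indicator_of_mem (show a' ∈ Lo le b.1 from h3.1 h4)]
      · rw [Set.indicator_of_notMem (show a ∉ Lo le b.1 from h4),
          Set.indicator_of_notMem (show a' ∉ Lo le b.1 from fun h5 => h4 (h3.2 h5))]
    rw [h1, map_add, map_add, map_smul, map_smul, h2,
      ih (fun c hc => h c (List.mem_cons_of_mem _ hc))]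

theorem fnl_pair_aux (m : List (Ω × ℚ × ℚ)) (l l' : List (Ω × ℚ × ℚ))
    (h1 : l.map Prod.snd = l'.map Prod.snd)
    (h2 : ∀ e ∈ l.zip l', ∀ b ∈ m, (le e.1.1 b.1 ↔ le e.2.1 b.1)) :
    fnl le l (vec le m) = fnl le l' (vec le m) := by
  induction l generalizing l' with
  | nil =>
    cases l' with
    | nil => rfl
    | cons e' l' => simp at h1
  | cons e l ih =>
    cases l' with
    | nil => simp at h1
    | cons e' l' =>
      simp only [List.map_cons, List.cons.injEq] at h1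
      have h3 : fnl le (e :: l) = (e.2.2 : ℝ) • ev le e.1 + fnl le l := by simp [fnl]
      have h4 : fnl le (e' :: l') = (e'.2.2 : ℝ) • ev le e'.1 + fnl le l' := by simp [fnl]
      rw [h3, h4]
      simp only [ContinuousLinearMap.add_apply, ContinuousLinearMap.smul_apply]
      rw [h1.1, ev_vec_aux e.1 e'.1 m (fun b hb => h2 (e, e') (by simp) b hb),
        ih l' h1.2 (fun p hp b hb => h2 p (by simp [hp]) b hb)]


theorem twin_eq (l m : List (Ω × ℚ × ℚ)) (hlm : Twin le l m) :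
    fnl le l (vec le m) = fnl le m (vec le m) := by
  exact fnl_pair_aux m l m hlm.1 hlm.2

theorem h396_vv_norm (a : Ω) : ‖vv le a‖ ≤ 1 := by
  have h1 : ‖vv le a‖ = ‖(indS (Lo le a) : EE Ω)‖ := rfl
  rw [h1]
  refine EE_norm_le _ 1 zero_le_one fun x => ?_
  rw [indS_apply]
  by_cases hx : x ∈ Lo le a
  · rw [Set.indicator_of_mem hx, abs_one]
  · rw [Set.indicator_of_notMem hx, abs_zero]
    exact zero_le_one

theorem h396_sep (a b : Ω) (ha : le a a) (hb : ¬ le b a) : 1 ≤ ‖ev le a - ev le b‖ := by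
  have h1 : (ev le a - ev le b) (vv le a) = 1 := by
    have h2 : ev le a (vv le a) = 1 := by
      rw [ev_apply]
      show (indS (Lo le a) : EE Ω) a = 1
      rw [indS_apply, Set.indicator_of_mem (show a ∈ Lo le a from ha)]
    have h3 : ev le b (vv le a) = 0 := by
      rw [ev_apply]
      show (indS (Lo le a) : EE Ω) b = 0
      rw [indS_apply, Set.indicator_of_notMem (show b ∉ Lo le a from hb)]
    rw [sub_apply, h2, h3, sub_zero]
  have h4 := (ev le a - ev le b).le_opNorm (vv le a)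
  rw [h1, norm_one] at h4
  have h5 := mul_le_mul_of_nonneg_left (h396_vv_norm (le := le) a)
    (norm_nonneg (ev le a - ev le b))
  rw [mul_one] at h5
  exact h4.trans h5


theorem sep_ev (h : Good le) (a b : Ω) (hab : a ≠ b) : 1 ≤ ‖ev le a - ev le b‖ := by
  rcases lt_or_gt_of_ne hab with h1 | h1
  · exact h396_sep a b (h.rfl' a) fun h2 => absurd (h.below b a h2) (not_le.2 h1)
  · exact (h396_sep b a (h.rfl' b) fun h2 => absurd (h.below a b h2) (not_le.2 h1)).trans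
      (le_of_eq (norm_sub_rev (ev le b) (ev le a)))

theorem sep_vv_aux (h : Good le) (a b : Ω) (hab : a < b) : 1 ≤ ‖vv le a - vv le b‖ := by
  have h1 : |(((vv le a - vv le b : XX le) : EE Ω)) b| ≤ ‖((vv le a - vv le b : XX le) : EE Ω)‖ :=
    EE_abs_le _ b
  have h2 : ((vv le a - vv le b : XX le) : EE Ω) b = -1 := by
    have h3 : ((vv le a - vv le b : XX le) : EE Ω) b
        = (indS (Lo le a) : EE Ω) b - (indS (Lo le b) : EE Ω) b := rfl
    rw [h3, indS_apply, indS_apply]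
    have hb : b ∈ Lo le b := h.rfl' b
    have ha : b ∉ Lo le a := fun hh => absurd (h.below b a hh) (not_le.mpr hab)
    rw [Set.indicator_of_mem hb, Set.indicator_of_notMem ha]
    norm_num
  rw [h2] at h1
  have h4 : ‖((vv le a - vv le b : XX le) : EE Ω)‖ = ‖vv le a - vv le b‖ := rfl
  rw [h4] at h1
  simpa using h1


theorem sep_vv (h : Good le) (a b : Ω) (hab : a ≠ b) : 1 ≤ ‖vv le a - vv le b‖ := by
  rcases lt_or_gt_of_ne hab with h1 | h1
  · exact sep_vv_aux h a b h1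
  · rw [norm_sub_rev]
    exact sep_vv_aux h b a h1


theorem nonsep {T : Type} [MetricSpace T] [Uncountable Ω] (f : Ω → T)
    (hf : ∀ a b, a ≠ b → 1 ≤ dist (f a) (f b)) : ¬ TopologicalSpace.SeparableSpace T := by
  intro hsep
  have hd : (Set.univ : Set Ω).PairwiseDisjoint (fun a => Metric.ball (f a) (1 / 2)) := by
    intro a _ b _ hab
    apply Metric.ball_disjoint_ball
    have := hf a b hab
    linarith
  have hc : (Set.univ : Set Ω).Countable := by
    refine hd.countable_of_isOpen (fun a _ => Metric.isOpen_ball) (fun a _ => ?_)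
    exact ⟨f a, Metric.mem_ball_self (by norm_num)⟩
  have hc' : Countable Ω := Set.countable_univ_iff.mp hc
  exact not_countable (α := Ω) hc'

theorem ctbl_supp_X0 (h : Good le) (hc : ∀ x : Ω, (Set.Iio x).Countable) (f : EE Ω)
    (hf : f ∈ X0 le) : ∃ C : Set Ω, C.Countable ∧ ∀ a ∉ C, f a = 0 := by
  unfold X0 at hf
  induction hf using Submodule.span_induction with
  | mem f hf =>
    obtain ⟨b, rfl⟩ := hf
    refine ⟨Lo le b, ?_, ?_⟩
    · refine ((hc b).insert b).mono (fun a ha => ?_)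
      rcases (h.below a b ha).eq_or_lt with h1 | h1
      · exact Or.inl h1
      · exact Or.inr h1
    · intro a ha
      simp only [indS_apply]
      exact Set.indicator_of_notMem ha _
  | zero => exact ⟨∅, Set.countable_empty, fun a _ => by simp⟩
  | add f g _ _ ihf ihg =>
    obtain ⟨C, hC, hC'⟩ := ihf
    obtain ⟨D, hD, hD'⟩ := ihg
    refine ⟨C ∪ D, hC.union hD, fun a ha => ?_⟩
    rw [lp.coeFn_add, Pi.add_apply, hC' a (fun hh => ha (Or.inl hh)),
      hD' a (fun hh => ha (Or.inr hh)), add_zero]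
  | smul r f _ ihf =>
    obtain ⟨C, hC, hC'⟩ := ihf
    refine ⟨C, hC, fun a ha => ?_⟩
    rw [lp.coeFn_smul, Pi.smul_apply, hC' a ha, smul_zero]


theorem ctbl_supp (h : Good le) (hc : ∀ x : Ω, (Set.Iio x).Countable) (x : XX le) :
    ∃ C : Set Ω, C.Countable ∧ ∀ a ∉ C, (x : EE Ω) a = 0 := by
  have hx : (x : EE Ω) ∈ closure ((X0 le : Submodule ℝ (EE Ω)) : Set (EE Ω)) := by
    have := x.2
    unfold XX at this
    rwa [← SetLike.mem_coe, Submodule.topologicalClosure_coe] at this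
  obtain ⟨u, hu, hlim⟩ := mem_closure_iff_seq_limit.1 hx
  choose C hC hC' using fun n => ctbl_supp_X0 h hc (u n) (hu n)
  refine ⟨⋃ n, C n, Set.countable_iUnion hC, fun a ha => ?_⟩
  have h1 : ∀ n, |(x : EE Ω) a| ≤ ‖(x : EE Ω) - u n‖ := by
    intro n
    have h2 := EE_abs_le ((x : EE Ω) - u n) a
    rw [lp.coeFn_sub, Pi.sub_apply, hC' n a (fun hh => ha (Set.mem_iUnion.2 ⟨n, hh⟩)),
      sub_zero] at h2
    exact h2
  have h3 : Filter.Tendsto (fun n => ‖(x : EE Ω) - u n‖) Filter.atTop (𝓝 0) := by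
    have h4 := (tendsto_const_nhds (x := (x : EE Ω))).sub hlim
    rw [sub_self] at h4
    simpa using h4.norm
  have h5 : |(x : EE Ω) a| ≤ 0 := ge_of_tendsto' h3 h1
  exact abs_eq_zero.1 (le_antisymm h5 (abs_nonneg _))

theorem sepdual_aux0 {F : Type*} [NormedAddCommGroup F] [NormedSpace ℝ F]
    (S : Set F) (hS : S.Countable)
    (hd : ∀ (ψ : F) (ε : ℝ), 0 < ε → ∃ g ∈ Submodule.span ℝ S, ‖ψ - g‖ ≤ ε) :
    TopologicalSpace.SeparableSpace F := by
  have hsep := (hS.isSeparable.span (R := ℝ)).closure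
  rw [← TopologicalSpace.isSeparable_univ_iff]
  refine hsep.mono ?_
  intro ψ _
  rw [Metric.mem_closure_iff]
  intro ε hε
  obtain ⟨g, hg, hle⟩ := hd ψ (ε / 2) (by positivity)
  refine ⟨g, hg, ?_⟩
  rw [dist_eq_norm]
  linarith

theorem sepdual_aux {E : Type*} [NormedAddCommGroup E] [NormedSpace ℝ E] (Y : Submodule ℝ E)
    (S : Set (Y →L[ℝ] ℝ)) (hS : S.Countable)
    (hd : ∀ (ψ : Y →L[ℝ] ℝ) (ε : ℝ), 0 < ε → ∃ φ : E →L[ℝ] ℝ, (∀ y : Y, φ y = ψ y) ∧
      ∃ g : E →L[ℝ] ℝ, g.comp Y.subtypeL ∈ Submodule.span ℝ S ∧ ‖φ - g‖ ≤ ε) :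
    TopologicalSpace.SeparableSpace (Y →L[ℝ] ℝ) := by
  refine sepdual_aux0 S hS ?_
  intro ψ ε hε
  obtain ⟨φ, hφ, g, hg, hle⟩ := hd ψ ε hε
  refine ⟨g.comp Y.subtypeL, hg, ?_⟩
  have e : ψ - g.comp Y.subtypeL = (φ - g).comp Y.subtypeL := by
    ext y
    simp [hφ]
  rw [e]
  refine ContinuousLinearMap.opNorm_le_bound _ hε.le fun y => ?_
  calc ‖((φ - g).comp Y.subtypeL) y‖ = ‖(φ - g) (y : E)‖ := rfl
    _ ≤ ‖φ - g‖ * ‖(y : E)‖ := (φ - g).le_opNorm _
    _ ≤ ε * ‖(y : E)‖ := mul_le_mul_of_nonneg_right hle (norm_nonneg _)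
    _ = ε * ‖y‖ := rfl


theorem sep_dual [WellFoundedLT Ω] (h : Good le) (hc : ∀ x : Ω, (Set.Iio x).Countable)
    (Y : Submodule ℝ (XX le)) (hY : TopologicalSpace.SeparableSpace Y) :
    TopologicalSpace.SeparableSpace (Y →L[ℝ] ℝ) := by
  classical
  obtain ⟨D, hDc, hDd⟩ := TopologicalSpace.exists_countable_dense Y
  choose Cs hCs1 hCs2 using fun y : Y => ctbl_supp h hc (y : XX le)
  have hCc : (⋃ d ∈ D, Cs d).Countable := hDc.biUnion fun d _ => hCs1 d
  generalize hCdef : (⋃ d ∈ D, Cs d) = C at hCc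
  have hz : ∀ a ∉ C, (ev le a).comp Y.subtypeL = 0 := by
    intro a ha
    have hcl : IsClosed {y : Y | ((ev le a).comp Y.subtypeL) y = 0} :=
      isClosed_eq ((ev le a).comp Y.subtypeL).continuous continuous_const
    have hsub : D ⊆ {y : Y | ((ev le a).comp Y.subtypeL) y = 0} := by
      intro d hd
      refine hCs2 d a ?_
      intro had
      apply ha
      rw [← hCdef]
      exact Set.mem_biUnion hd had
    have huniv := (hcl.closure_subset_iff.2 hsub)
    rw [hDd.closure_eq] at huniv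
    ext y
    exact huniv (Set.mem_univ y)
  have hSc : ((fun a => (ev le a).comp Y.subtypeL) '' C).Countable := hCc.image _
  refine sepdual_aux Y _ hSc ?_
  intro ψ ε hε
  obtain ⟨φ, hφ, _⟩ := exists_extension_norm_eq Y ψ
  obtain ⟨c, hc'⟩ := ev_dense h φ ε hε
  refine ⟨φ, hφ, c.sum fun a r => r • ev le a, ?_, hc'⟩
  have e : (c.sum fun a r => r • ev le a).comp Y.subtypeL =
      ∑ a ∈ c.support, c a • (ev le a).comp Y.subtypeL := by
    ext y
    simp [Finsupp.sum]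
  rw [e]
  refine Submodule.sum_mem _ fun a _ => Submodule.smul_mem _ _ ?_
  by_cases ha : a ∈ C
  · exact Submodule.subset_span ⟨a, ha, rfl⟩
  · rw [hz a ha]
    exact Submodule.zero_mem _

end Space

section Ren


theorem hb {X : Type} [NormedAddCommGroup X] [NormedSpace ℝ X] (N : X → ℝ)
    (h1 : ∀ x y : X, N (x + y) ≤ N x + N y) (h2 : ∀ (r : ℝ) (x : X), N (r • x) = |r| * N x)
    (C : ℝ) (hC : ∀ x, N x ≤ C * ‖x‖) (x : X) :
    ∃ φ : X →L[ℝ] ℝ, (∀ z, |φ z| ≤ N z) ∧ φ x = N x := by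
  have hN0 : N 0 = 0 := by
    have := h2 0 0
    simpa using this
  have hneg : ∀ z, N (-z) = N z := by
    intro z
    have := h2 (-1) z
    simpa using this
  have hnn : ∀ z, 0 ≤ N z := by
    intro z
    have := h1 z (-z)
    rw [add_neg_cancel, hN0, hneg] at this
    linarith
  rcases eq_or_ne x 0 with hx | hx
  · refine ⟨0, fun z => by simpa using hnn z, ?_⟩
    rw [hx, hN0]
    simp
  · obtain ⟨g, hg1, hg2⟩ := exists_extension_of_le_sublinear
      (LinearPMap.mkSpanSingleton (K := ℝ) x (N x) hx) N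
      (fun c hc y => by rw [h2, abs_of_pos hc]) h1 (by
        rintro ⟨y, hy⟩
        obtain ⟨r, rfl⟩ := Submodule.mem_span_singleton.1 hy
        have h5 : (LinearPMap.mkSpanSingleton (K := ℝ) x (N x) hx) ⟨r • x, hy⟩ = r • N x :=
          LinearPMap.mkSpanSingleton'_apply _ _ _ _ _
        rw [h5, smul_eq_mul]
        show r * N x ≤ N (r • x)
        rw [h2]
        exact mul_le_mul_of_nonneg_right (le_abs_self r) (hnn x))
    have hab : ∀ z, |g z| ≤ N z := by
      intro z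
      rw [abs_le]
      constructor
      · have := hg2 (-z)
        rw [map_neg, hneg] at this
        linarith
      · exact hg2 z
    refine ⟨g.mkContinuous C (fun z => (hab z).trans (hC z)), hab, ?_⟩
    have h3 := hg1 ⟨x, (Submodule.mem_span_singleton_self x : x ∈ Submodule.span ℝ {x})⟩
    have h4 := LinearPMap.mkSpanSingleton_apply ℝ ℝ (σ := RingHom.id ℝ) hx (N x)
    exact h3.trans h4


theorem recur {Ω T : Type} [LinearOrder Ω] [WellFoundedLT Ω]
    (hc : ∀ x : Ω, (Set.Iio x).Countable) (R : Set T → T → Prop)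
    (hR : ∀ D : Set T, D.Countable → ∃ t, R D t) :
    ∃ f : Ω → T, ∀ α, R (f '' Set.Iio α) (f α) := by
  classical
  obtain ⟨t0, _⟩ := hR ∅ Set.countable_empty
  have hT : Nonempty T := ⟨t0⟩
  let F : (α : Ω) → ((β : Ω) → β < α → T) → T := fun α ih =>
    Classical.epsilon (fun t => R {s | ∃ β, ∃ h : β < α, s = ih β h} t)
  have hwf : WellFounded ((· < ·) : Ω → Ω → Prop) := wellFounded_lt
  let f : Ω → T := hwf.fix F
  have hf : ∀ α, f α = F α (fun β _ => f β) := fun α => hwf.fix_eq F α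
  refine ⟨f, fun α => ?_⟩
  have hset : {s | ∃ β, ∃ _ : β < α, s = f β} = f '' Set.Iio α := by
    ext s
    constructor
    · rintro ⟨β, hβ, rfl⟩
      exact ⟨β, hβ, rfl⟩
    · rintro ⟨β, hβ, rfl⟩
      exact ⟨β, hβ, rfl⟩
  have h1 := Classical.epsilon_spec (hR (f '' Set.Iio α) ((hc α).image f))
  have h2 : F α (fun β _ => f β) = Classical.epsilon (fun t => R (f '' Set.Iio α) t) := by
    show Classical.epsilon (fun t => R {s | ∃ β, ∃ h : β < α, s = f β} t) = _
    rw [hset]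
  rw [hf α, h2]
  exact h1


theorem fails {X : Type} [NormedAddCommGroup X] [NormedSpace ℝ X] (N : X → ℝ)
    (hns : ¬ TopologicalSpace.SeparableSpace (X →L[ℝ] ℝ))
    (h1 : ∀ x y : X, N (x + y) ≤ N x + N y) (h2 : ∀ (r : ℝ) (x : X), N (r • x) = |r| * N x)
    (C : ℝ) (hC : ∀ x, N x ≤ C * ‖x‖)
    (hY : ∀ Y : Submodule ℝ (X →L[ℝ] ℝ), IsClosed (Y : Set (X →L[ℝ] ℝ)) →
        (∀ x : X, ∀ ε : ℝ, 0 < ε → ∃ f ∈ Y, (∀ z : X, |f z| ≤ N z) ∧ N x - ε < f x) → Y = ⊤)
    (D : Set (X →L[ℝ] ℝ)) (hD : D.Countable) (hDN : ∀ φ ∈ D, ∀ z, |φ z| ≤ N z) :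
    ∃ (ψ : X →L[ℝ] ℝ) (x : X) (n : ℕ), (∀ z, |ψ z| ≤ N z) ∧ ‖x‖ = 1 ∧
      ∀ φ ∈ D, φ x ≤ ψ x - 1 / ((n : ℝ) + 1) := by
  classical
  have hN0 : N 0 = 0 := by
    have := h2 0 0
    simpa using this
  have hNneg : ∀ z, N (-z) = N z := by
    intro z
    have := h2 (-1) z
    simpa using this
  have hNnn : ∀ z, 0 ≤ N z := by
    intro z
    have := h1 z (-z)
    rw [add_neg_cancel, hN0, hNneg] at this
    linarith
  set D' : Set (X →L[ℝ] ℝ) := insert 0 D with hD'
  have hDc : D'.Countable := hD.insert 0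
  have hDN' : ∀ φ ∈ D', ∀ z, |φ z| ≤ N z := by
    intro φ hφ z
    rcases hφ with rfl | hφ
    · simpa using hNnn z
    · exact hDN φ hφ z
  have key : ∃ x : X, ∃ ε : ℝ, 0 < ε ∧ ∀ φ ∈ D', φ x ≤ N x - ε := by
    by_contra hcon
    push Not at hcon
    apply hns
    have hsep : TopologicalSpace.IsSeparable
        ((Submodule.span ℝ D').topologicalClosure : Set (X →L[ℝ] ℝ)) := by
      rw [Submodule.topologicalClosure_coe]
      exact (hDc.isSeparable.span (R := ℝ)).closure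
    have htop := hY (Submodule.span ℝ D').topologicalClosure
      (Submodule.isClosed_topologicalClosure _) (by
        intro x ε hε
        obtain ⟨φ, hφ, hlt⟩ := hcon x ε hε
        exact ⟨φ, Submodule.le_topologicalClosure _ (Submodule.subset_span hφ), hDN' φ hφ, hlt⟩)
    rw [htop] at hsep
    rw [← TopologicalSpace.isSeparable_univ_iff]
    simpa using hsep
  obtain ⟨x, ε, hε, hx⟩ := key
  have hNx : ε ≤ N x := by
    have := hx 0 (Set.mem_insert _ _)
    simp at this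
    linarith
  have hx0 : x ≠ 0 := by
    rintro rfl
    rw [hN0] at hNx
    linarith
  have ht : 0 < ‖x‖ := norm_pos_iff.mpr hx0
  have hNy : N (‖x‖⁻¹ • x) = ‖x‖⁻¹ * N x := by
    rw [h2, abs_of_pos (inv_pos.mpr ht)]
  obtain ⟨ψ, hψ, hψx⟩ := hb N h1 h2 C hC (‖x‖⁻¹ • x)
  obtain ⟨n, hn⟩ := exists_nat_one_div_lt (mul_pos (inv_pos.mpr ht) hε)
  refine ⟨ψ, ‖x‖⁻¹ • x, n, hψ, ?_, ?_⟩
  · rw [norm_smul, norm_inv, norm_norm]
    exact inv_mul_cancel₀ ht.ne'
  · intro φ hφ
    rw [hψx, hNy, map_smul, smul_eq_mul]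
    have h3 := mul_le_mul_of_nonneg_left (hx φ (Set.mem_insert_of_mem _ hφ)) (inv_pos.mpr ht).le
    rw [mul_sub] at h3
    linarith


theorem sequence {Ω : Type} [LinearOrder Ω] [WellFoundedLT Ω]
    (hc : ∀ x : Ω, (Set.Iio x).Countable)
    {X : Type} [NormedAddCommGroup X] [NormedSpace ℝ X] (N : X → ℝ)
    (hns : ¬ TopologicalSpace.SeparableSpace (X →L[ℝ] ℝ))
    (h1 : ∀ x y : X, N (x + y) ≤ N x + N y) (h2 : ∀ (r : ℝ) (x : X), N (r • x) = |r| * N x)
    (C : ℝ) (hC : ∀ x, N x ≤ C * ‖x‖)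
    (hY : ∀ Y : Submodule ℝ (X →L[ℝ] ℝ), IsClosed (Y : Set (X →L[ℝ] ℝ)) →
        (∀ x : X, ∀ ε : ℝ, 0 < ε → ∃ f ∈ Y, (∀ z : X, |f z| ≤ N z) ∧ N x - ε < f x) → Y = ⊤) :
    ∃ (φ : Ω → (X →L[ℝ] ℝ)) (x : Ω → X) (n : Ω → ℕ), (∀ α z, |φ α z| ≤ N z) ∧
      (∀ α, ‖x α‖ = 1) ∧ ∀ β α, β < α → φ β (x α) ≤ φ α (x α) - 1 / ((n α : ℝ) + 1) := by
  obtain ⟨f, hf⟩ := recur (Ω := Ω) (T := (X →L[ℝ] ℝ) × X × ℕ) hc
    (fun D t => (∀ z, |t.1 z| ≤ N z) ∧ ‖t.2.1‖ = 1 ∧
      ∀ s ∈ D, (∀ z, |s.1 z| ≤ N z) → s.1 t.2.1 ≤ t.1 t.2.1 - 1 / ((t.2.2 : ℝ) + 1))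
    (by
      intro D hD
      obtain ⟨ψ, x, n, h3, h4, h5⟩ := fails N hns h1 h2 C hC hY
        {φ | φ ∈ Prod.fst '' D ∧ ∀ z, |φ z| ≤ N z}
        ((hD.image Prod.fst).mono (fun φ hφ => hφ.1)) (fun φ hφ => hφ.2)
      exact ⟨(ψ, x, n), h3, h4, fun s hs hsN => h5 s.1 ⟨⟨s, hs, rfl⟩, hsN⟩⟩)
  refine ⟨fun α => (f α).1, fun α => (f α).2.1, fun α => (f α).2.2, fun α => (hf α).1,
    fun α => (hf α).2.1, ?_⟩
  intro β α hβα
  exact (hf α).2.2 (f β) ⟨β, hβα, rfl⟩ (hf β).1

end Ren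

section Main

open Topology ENNReal


theorem zfc (Ω : Type) [LinearOrder Ω] [WellFoundedLT Ω] [Uncountable Ω]
    (hc : ∀ x : Ω, (Set.Iio x).Countable) (hP : AsplundPrinciple Ω) : ¬ PositiveQ1 := by
  intro hQ
  obtain ⟨le, hr, ht, hbelow, hmeet, htwin⟩ := hP
  have h : Good le := ⟨hr, ht, hbelow, hmeet⟩
  have hnsX : ¬ TopologicalSpace.SeparableSpace (XX le) :=
    nonsep (vv le) (fun a b hab => by rw [dist_eq_norm]; exact sep_vv h a b hab)
  have hnsD : ¬ TopologicalSpace.SeparableSpace (XX le →L[ℝ] ℝ) :=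
    nonsep (ev le) (fun a b hab => by rw [dist_eq_norm]; exact sep_ev h a b hab)
  obtain ⟨N, h1, h2, ⟨c, C, hc0, hC0, hcC⟩, hY⟩ :=
    hQ (↥(XX le)) (fun Y hY => sep_dual h hc Y hY) hnsX
  obtain ⟨φ, x, n, hφN, hx1, hφ⟩ :=
    sequence (Ω := Ω) hc N hnsD h1 h2 C (fun x => (hcC x).2) hY
  have hφC : ∀ α, ‖φ α‖ ≤ C := fun α =>
    ContinuousLinearMap.opNorm_le_bound _ hC0.le
      (fun z => by rw [Real.norm_eq_abs]; exact le_trans (hφN α z) (hcC z).2)
  have hden : ∀ α, 0 < 8 * ((n α : ℝ) + 1) * (C + 2) := fun α => by positivity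
  have hδ : ∀ α, 0 < 1 / (8 * ((n α : ℝ) + 1) * (C + 2)) := fun α => by
    have := hden α
    positivity
  choose l hl1 hl2 using fun α => approx_both h (x α) (φ α) _ (hδ α)
  obtain ⟨β, α, hβα, htw⟩ := htwin (fun α => (α, (n α : ℚ), (0 : ℚ)) :: l α)
  obtain ⟨ht1, ht2⟩ := htw
  simp only [List.map_cons, List.cons.injEq, Prod.mk.injEq, and_true] at ht1
  have hn : n β = n α := by
    have := ht1.1
    exact_mod_cast this
  have htw' : Twin le (l β) (l α) := by
    refine ⟨ht1.2, fun e he b hb => ht2 e ?_ b (List.mem_cons_of_mem _ hb)⟩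
    rw [List.zip_cons_cons]
    exact List.mem_cons_of_mem _ he
  have heq := twin_eq (l β) (l α) htw'
  have hlt := hφ β α hβα
  have ha2 := hl2 α
  have ha1 := hl1 α
  have hb2 := hl2 β
  rw [hn] at hb2
  have hd := hδ α
  have hd8 := hden α
  set δ : ℝ := 1 / (8 * ((n α : ℝ) + 1) * (C + 2)) with hδdef
  have hX := hx1 α
  have hn0 : (0 : ℝ) ≤ (n α : ℝ) := Nat.cast_nonneg _
  have hδ1 : δ ≤ 1 := by
    rw [hδdef, div_le_one hd8]
    nlinarith [mul_nonneg hn0 hC0.le]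
  have hmul : 2 * (C + 2) * δ = 1 / (4 * ((n α : ℝ) + 1)) := by
    rw [hδdef]
    have : (C + 2) ≠ 0 := by positivity
    have : ((n α : ℝ) + 1) ≠ 0 := by positivity
    field_simp
    ring
  have hfa : ‖fnl le (l α)‖ ≤ C + 1 := by
    have e : fnl le (l α) = φ α - (φ α - fnl le (l α)) := by abel
    rw [e]
    have e' : ‖φ α - (φ α - fnl le (l α))‖ ≤ ‖φ α‖ + ‖φ α - fnl le (l α)‖ :=
      norm_sub_le (φ α) (φ α - fnl le (l α))
    linarith [hφC α]
  have hfb : ‖fnl le (l β)‖ ≤ C + 1 := by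
    have e : fnl le (l β) = φ β - (φ β - fnl le (l β)) := by abel
    rw [e]
    have e' : ‖φ β - (φ β - fnl le (l β))‖ ≤ ‖φ β‖ + ‖φ β - fnl le (l β)‖ :=
      norm_sub_le (φ β) (φ β - fnl le (l β))
    linarith [hφC β]
  have e1 : |(φ α - fnl le (l α)) (x α)| ≤ δ := by
    have := (φ α - fnl le (l α)).le_opNorm (x α)
    rw [hX, mul_one, Real.norm_eq_abs] at this
    linarith
  have e2 : |(fnl le (l α)) (x α - vec le (l α))| ≤ (C + 1) * δ := by
    have := (fnl le (l α)).le_opNorm (x α - vec le (l α))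
    rw [Real.norm_eq_abs] at this
    exact le_trans this (mul_le_mul hfa ha1 (norm_nonneg _) (by linarith))
  have e3 : |(fnl le (l β)) (x α - vec le (l α))| ≤ (C + 1) * δ := by
    have := (fnl le (l β)).le_opNorm (x α - vec le (l α))
    rw [Real.norm_eq_abs] at this
    exact le_trans this (mul_le_mul hfb ha1 (norm_nonneg _) (by linarith))
  have e4 : |(φ β - fnl le (l β)) (x α)| ≤ δ := by
    have := (φ β - fnl le (l β)).le_opNorm (x α)
    rw [hX, mul_one, Real.norm_eq_abs] at this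
    linarith
  rw [ContinuousLinearMap.sub_apply] at e1 e4
  rw [map_sub] at e2 e3
  rw [abs_le] at e1 e2 e3 e4
  have hfin : φ α (x α) - φ β (x α) ≤ 2 * (C + 2) * δ := by
    nlinarith [e1.2, e2.2, e3.1, e4.1, heq]
  rw [hmul] at hfin
  have hpos : (0 : ℝ) < (n α : ℝ) + 1 := by positivity
  have hq : 1 / (4 * ((n α : ℝ) + 1)) < 1 / ((n α : ℝ) + 1) := by
    apply one_div_lt_one_div_of_lt hpos
    linarith
  linarith

end Main

end Pool.Agent.Helper161.Asp
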