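import Mathlib
import Pool.Agent.Helper161.Asp.Zfc

/-!
# The finite conditions force the principle
-/

set_option autoImplicit false
set_option linter.unusedSectionVars false
set_option linter.unusedVariables false

namespace Pool.Agent.Helper161.Asp

open Cardinal

section LangLemmas

universe v w

variable {P : Type} [Preorder P]

theorem mem_fex {ι : Sort v} {φ : ι → Set P} {p : P} :
    p ∈ fex φ ↔ ∀ q ≤ p, ∃ r ≤ q, ∃ i, r ∈ φ i := by
  simp only [fex, fnot, fall, Set.mem_ofPred_eq, not_forall, not_not]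
  constructor
  · intro h q hq
    obtain ⟨i, r, hr, h'⟩ := h q hq
    exact ⟨r, hr, i, h'⟩
  · intro h q hq
    obtain ⟨r, hr, i, h'⟩ := h q hq
    exact ⟨i, r, hr, h'⟩

theorem mem_fimp {φ ψ : Set P} {p : P} :
    p ∈ fimp φ ψ ↔ ∀ q ≤ p, q ∈ φ → ∃ r ≤ q, r ∈ ψ := by
  simp only [fimp, fnot, fand, Set.mem_ofPred_eq, not_and, not_forall, not_not]
  constructor
  · intro h q hq h'
    obtain ⟨r, hr, h''⟩ := h q hq h'
    exact ⟨r, hr, h''⟩
  · intro h q hq h'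
    obtain ⟨r, hr, h''⟩ := h q hq h'
    exact ⟨r, hr, h''⟩

theorem mem_fnot {φ : Set P} {p : P} : p ∈ fnot φ ↔ ∀ q ≤ p, q ∉ φ := Iff.rfl

theorem mem_fand {φ ψ : Set P} {p : P} : p ∈ fand φ ψ ↔ p ∈ φ ∧ p ∈ ψ := Iff.rfl

theorem mem_fall {ι : Sort v} {φ : ι → Set P} {p : P} : p ∈ fall φ ↔ ∀ i, p ∈ φ i := Iff.rfl

theorem mem_fground {h : Prop} {p : P} : p ∈ fground (P := P) h ↔ h := Iff.rfl

/-- The statement `φ` is preserved by passing to stronger conditions. -/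
def Down (φ : Set P) : Prop := ∀ p ∈ φ, ∀ q ≤ p, q ∈ φ

/-- The statement `φ` is forced if it is forced by densely many stronger conditions. -/
def Reglr (φ : Set P) : Prop := Down φ ∧ ∀ p, (∀ q ≤ p, ∃ r ≤ q, r ∈ φ) → p ∈ φ

theorem reglr_fnot {φ : Set P} (h : Down φ) : Reglr (fnot φ) :=
  ⟨fun _ hp _ hq r hr => hp r (hr.trans hq), fun p hp q hq hφ => by
    obtain ⟨r, hr, hr'⟩ := hp q hq
    exact hr' r le_rfl (h q hφ r hr)⟩

theorem down_fnot (φ : Set P) : Down (fnot φ) :=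
  fun _ hp _ hq r hr => hp r (hr.trans hq)

theorem down_fand {φ ψ : Set P} (h : Down φ) (h' : Down ψ) : Down (fand φ ψ) :=
  fun _ hp _ hq => ⟨h _ hp.1 _ hq, h' _ hp.2 _ hq⟩

theorem down_fall {ι : Sort v} {φ : ι → Set P} (h : ∀ i, Down (φ i)) : Down (fall φ) :=
  fun _ hp _ hq i => h i _ (hp i) _ hq

theorem reglr_fand {φ ψ : Set P} (h : Reglr φ) (h' : Reglr ψ) : Reglr (fand φ ψ) :=
  ⟨down_fand h.1 h'.1, fun p hp => ⟨h.2 p fun q hq => (hp q hq).imp fun _ hr => ⟨hr.1, hr.2.1⟩,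
    h'.2 p fun q hq => (hp q hq).imp fun _ hr => ⟨hr.1, hr.2.2⟩⟩⟩

theorem reglr_fall {ι : Sort v} {φ : ι → Set P} (h : ∀ i, Reglr (φ i)) : Reglr (fall φ) :=
  ⟨down_fall fun i => (h i).1, fun p hp i => (h i).2 p fun q hq =>
    (hp q hq).imp fun _ hr => ⟨hr.1, hr.2 i⟩⟩

theorem down_fex {ι : Sort v} (φ : ι → Set P) : Down (fex φ) := down_fnot _

theorem reglr_fex {ι : Sort v} (φ : ι → Set P) : Reglr (fex φ) :=
  reglr_fnot (down_fall fun _ => down_fnot _)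

theorem down_fimp (φ ψ : Set P) : Down (fimp φ ψ) := down_fnot _

theorem reglr_fimp {φ : Set P} (h : Down φ) (ψ : Set P) : Reglr (fimp φ ψ) :=
  reglr_fnot (down_fand h (down_fnot _))

theorem down_fground (h : Prop) : Down (fground (P := P) h) := fun _ hp _ _ => hp

theorem reglr_fground (h : Prop) : Reglr (fground (P := P) h) :=
  ⟨down_fground h, fun p hp => by
    obtain ⟨r, _, hr⟩ := hp p le_rfl
    exact hr⟩

theorem down_meets (N : Set P) : Down (meets N) :=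
  fun _ hp _ hq r hr => hp r (hr.trans hq)

theorem reglr_meets (N : Set P) : Reglr (meets N) :=
  ⟨down_meets N, fun p hp q hq => by
    obtain ⟨r, hr, hr'⟩ := hp q hq
    obtain ⟨t, ht, s, hs, hts⟩ := hr' r le_rfl
    exact ⟨t, ht.trans hr, s, hs, hts⟩⟩

theorem reglr_IsFun {X : Type v} {Y : Type w} (R : X → Y → Set P) : Reglr (IsFun R) :=
  reglr_fand (reglr_fall fun _ => reglr_fex _)
    (reglr_fall fun _ => reglr_fall fun _ => reglr_fall fun _ =>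
      reglr_fimp (down_fand (down_meets _) (down_meets _)) _)

theorem down_IsFun {X : Type v} {Y : Type w} (R : X → Y → Set P) : Down (IsFun R) :=
  (reglr_IsFun R).1

theorem mem_fex_of_mem {ι : Sort v} {φ : ι → Set P} {p : P} (i : ι) (hd : Down (φ i))
    (h : p ∈ φ i) : p ∈ fex φ :=
  mem_fex.2 fun q hq => ⟨q, le_rfl, i, hd _ h _ hq⟩

theorem meets_of_mem {N : Set P} {p : P} (h : p ∈ N) : p ∈ meets N :=
  fun q hq => ⟨q, le_rfl, p, h, hq⟩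

/-- for a set closed downwards -/
theorem exists_of_meets {N : Set P} (hN : Down N) {p : P} (h : p ∈ meets N) :
    ∃ q ≤ p, q ∈ N := by
  obtain ⟨r, hr, s, hs, hle⟩ := h p le_rfl
  exact ⟨r, hr, hN s hs r hle⟩

theorem IsFun.total {X : Type v} {Y : Type w} {R : X → Y → Set P} {p : P} (h : p ∈ IsFun R)
    (x : X) : ∃ q ≤ p, ∃ y, q ∈ meets (R x y) := mem_fex.1 (h.1 x) p le_rfl

theorem IsFun.unique {X : Type v} {Y : Type w} {R : X → Y → Set P} {p : P} (h : p ∈ IsFun R)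
    {x : X} {y y' : Y} (h1 : p ∈ meets (R x y)) (h2 : p ∈ meets (R x y')) : y = y' := by
  obtain ⟨r, _, hr⟩ := mem_fimp.1 (h.2 x y y') p le_rfl ⟨h1, h2⟩
  exact hr

end LangLemmas

theorem tf_fex {ι : Sort*} (φ : ι → Set Unit) : (() ∈ fex φ) ↔ ∃ i, () ∈ φ i := by
  rw [mem_fex]
  constructor
  · intro h
    obtain ⟨r, _, i, hi⟩ := h () le_rfl
    exact ⟨i, hi⟩
  · rintro ⟨i, hi⟩ q _
    exact ⟨(), le_rfl, i, hi⟩

theorem tf_fimp (φ ψ : Set Unit) : (() ∈ fimp φ ψ) ↔ (() ∈ φ → () ∈ ψ) := by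
  rw [mem_fimp]
  constructor
  · intro h hφ
    obtain ⟨r, _, hr⟩ := h () le_rfl hφ
    exact hr
  · intro h q _ hq
    exact ⟨(), le_rfl, h hq⟩

theorem tf_fnot (φ : Set Unit) : (() ∈ fnot φ) ↔ () ∉ φ := by
  rw [mem_fnot]
  exact ⟨fun h => h () le_rfl, fun h q _ => h⟩

theorem tf_meets (N : Set Unit) : (() ∈ meets N) ↔ () ∈ N := by
  constructor
  · intro h
    obtain ⟨r, _, s, hs, _⟩ := h () le_rfl
    exact hs
  · exact meets_of_mem


theorem trivial_forces_aux (Ω : Type) [LinearOrder Ω] :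
    (() ∈ ForcesAsplundPrinciple Unit Ω) ↔ ∃ R : Ω → Ω → Set Unit,
      ((∀ a, () ∈ R a a) ∧ (∀ a b c, () ∈ R a b ∧ () ∈ R b c → () ∈ R a c) ∧
        (∀ a b, () ∈ R a b → a ≤ b)) ∧
      (∀ a b, ∃ F : Finset Ω, ∀ c, (() ∈ R c a ∧ () ∈ R c b → ∃ d, d ∈ F ∧ () ∈ R c d) ∧
        ((∃ d, d ∈ F ∧ () ∈ R c d) → () ∈ R c a ∧ () ∈ R c b)) ∧
      (∀ c : Ω → List (Ω × ℚ × ℚ) → Set Unit, ((∀ x, ∃ y, () ∈ c x y) ∧
          (∀ x y y', () ∈ c x y ∧ () ∈ c x y' → y = y')) →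
        ∃ (β α : Ω) (l m : List (Ω × ℚ × ℚ)), (β < α ∧ l.map Prod.snd = m.map Prod.snd) ∧
          (() ∈ c β l ∧ (() ∈ c α m ∧ ∀ e, e ∈ l.zip m → ∀ b, b ∈ m →
            ((() ∈ R e.1.1 b.1 → () ∈ R e.2.1 b.1) ∧ (() ∈ R e.2.1 b.1 → () ∈ R e.1.1 b.1))))) := by
  simp only [ForcesAsplundPrinciple, FOrder, FMeet, FTwin, IsFun, tf_fex,
    mem_fand, mem_fall, tf_fimp, tf_meets, mem_fground]

theorem trivial_forces (Ω : Type) [LinearOrder Ω] :
    (() ∈ ForcesAsplundPrinciple Unit Ω) ↔ AsplundPrinciple Ω := by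
  rw [trivial_forces_aux]
  constructor
  · rintro ⟨R, ⟨h1, h2, h3⟩, h4, h5⟩
    refine ⟨fun a b => () ∈ R a b, h1, fun a b c hab hbc => h2 a b c ⟨hab, hbc⟩, h3, ?_, ?_⟩
    · intro a b
      obtain ⟨F, hF⟩ := h4 a b
      exact ⟨F, fun c => ⟨fun h => (hF c).1 h, fun h => (hF c).2 h⟩⟩
    · intro c
      obtain ⟨β, α, l, m, ⟨hβα, hlm⟩, hl, hm, hT⟩ := h5 (fun β b => {_u | c β = b})
        ⟨fun x => ⟨c x, rfl⟩, fun x y y' h => by
          have e1 : c x = y := h.1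
          have e2 : c x = y' := h.2
          exact e1.symm.trans e2⟩
      have hl' : c β = l := hl
      have hm' : c α = m := hm
      subst hl' hm'
      exact ⟨β, α, hβα, hlm, fun e he b hb => ⟨(hT e he b hb).1, (hT e he b hb).2⟩⟩
  · rintro ⟨le, h1, h2, h3, h4, h5⟩
    refine ⟨fun a b => {_u | le a b}, ⟨h1, fun a b c h => h2 a b c h.1 h.2, h3⟩, ?_, ?_⟩
    · intro a b
      obtain ⟨F, hF⟩ := h4 a b
      exact ⟨F, fun c => ⟨fun h => (hF c).1 h, fun h => (hF c).2 h⟩⟩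
    · rintro c ⟨hc1, hc2⟩
      choose f hf using hc1
      obtain ⟨β, α, hβα, hlm, hT⟩ := h5 f
      exact ⟨β, α, f β, f α, ⟨hβα, hlm⟩, hf β, hf α,
        fun e he b hb => ⟨(hT e he b hb).1, (hT e he b hb).2⟩⟩

section Order

/-- A condition: a finite set `A` and a partial order `L` on `A` (a finite set of pairs), contained
in `≤`. -/
structure Co (Ω : Type) [LinearOrder Ω] where
  A : Finset Ω
  L : Finset (Ω × Ω)
  sub : ∀ a b, (a, b) ∈ L → a ∈ A ∧ b ∈ A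
  rfl' : ∀ a ∈ A, (a, a) ∈ L
  trans' : ∀ a b c, (a, b) ∈ L → (b, c) ∈ L → (a, c) ∈ L
  below : ∀ a b, (a, b) ∈ L → a ≤ b

variable {Ω : Type} [LinearOrder Ω]

/-- `q` extends `p`: the order of `p` is the restriction of the order of `q`, and common lower
bounds of two elements of `p` are below common lower bounds in `p`. -/
def Ext (q p : Co Ω) : Prop :=
  p.A ⊆ q.A ∧ (∀ a ∈ p.A, ∀ b ∈ p.A, ((a, b) ∈ q.L ↔ (a, b) ∈ p.L)) ∧
  ∀ a ∈ p.A, ∀ b ∈ p.A, ∀ c, (c, a) ∈ q.L → (c, b) ∈ q.L →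
    ∃ d ∈ p.A, (d, a) ∈ p.L ∧ (d, b) ∈ p.L ∧ (c, d) ∈ q.L

theorem ext_refl (p : Co Ω) : Ext p p :=
  ⟨Finset.Subset.refl _, fun _ _ _ _ => Iff.rfl, fun a _ b _ c h1 h2 =>
    ⟨c, (p.sub c a h1).1, h1, h2, p.rfl' c (p.sub c a h1).1⟩⟩

theorem ext_trans {r q p : Co Ω} (h : Ext r q) (h' : Ext q p) : Ext r p := by
  refine ⟨h'.1.trans h.1, fun a ha b hb => (h.2.1 a (h'.1 ha) b (h'.1 hb)).trans (h'.2.1 a ha b hb),
    fun a ha b hb c h1 h2 => ?_⟩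
  obtain ⟨d, hd, hda, hdb, hcd⟩ := h.2.2 a (h'.1 ha) b (h'.1 hb) c h1 h2
  obtain ⟨e, he, hea, heb, hde⟩ := h'.2.2 a ha b hb d hda hdb
  exact ⟨e, he, hea, heb, r.trans' c d e hcd ((h.2.1 d hd e (h'.1 he)).2 hde)⟩

instance : Preorder (Co Ω) where
  le r p := Ext r p
  le_refl := ext_refl
  le_trans a b c h h' := ext_trans h h'

theorem Co.le_def {r p : Co Ω} : r ≤ p ↔ Ext r p := Iff.rfl

instance : Nonempty (Co Ω) :=
  ⟨⟨∅, ∅, by simp, by simp, by simp, by simp⟩⟩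

theorem Co.ext' {p q : Co Ω} (h1 : p.A = q.A) (h2 : p.L = q.L) : p = q := by
  cases p; cases q; simp only at h1 h2; subst h1 h2; rfl

theorem add_coord (p : Co Ω) (a : Ω) : ∃ q ≤ p, a ∈ q.A := by
  classical
  by_cases ha : a ∈ p.A
  · exact ⟨p, le_refl p, ha⟩
  have hL : ∀ x y, (x, y) ∈ insert (a, a) p.L ↔ (x = a ∧ y = a) ∨ (x, y) ∈ p.L := by
    intro x y; rw [Finset.mem_insert, Prod.mk.injEq]
  refine ⟨⟨insert a p.A, insert (a, a) p.L, ?_, ?_, ?_, ?_⟩, ?_, Finset.mem_insert_self _ _⟩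
  · intro x y hxy
    rcases (hL x y).1 hxy with ⟨rfl, rfl⟩ | h
    · exact ⟨Finset.mem_insert_self _ _, Finset.mem_insert_self _ _⟩
    · exact ⟨Finset.mem_insert_of_mem (p.sub x y h).1, Finset.mem_insert_of_mem (p.sub x y h).2⟩
  · intro x hx
    rcases Finset.mem_insert.1 hx with rfl | h
    · exact (hL _ _).2 (Or.inl ⟨rfl, rfl⟩)
    · exact (hL _ _).2 (Or.inr (p.rfl' x h))
  · intro x y z hxy hyz
    rcases (hL x y).1 hxy with ⟨rfl, rfl⟩ | h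
    · exact hyz
    · rcases (hL y z).1 hyz with ⟨rfl, rfl⟩ | h'
      · exact absurd (p.sub _ _ h).2 ha
      · exact (hL _ _).2 (Or.inr (p.trans' x y z h h'))
  · intro x y hxy
    rcases (hL x y).1 hxy with ⟨rfl, rfl⟩ | h
    · exact le_refl _
    · exact p.below x y h
  · refine ⟨Finset.subset_insert _ _, ?_, ?_⟩
    · intro x hx y hy
      rw [hL]
      constructor
      · rintro (⟨rfl, rfl⟩ | h)
        · exact absurd hx ha
        · exact h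
      · exact Or.inr
    · intro x hx y hy c h1 h2
      rcases (hL _ _).1 h1 with ⟨rfl, rfl⟩ | h1'
      · exact absurd hx ha
      rcases (hL _ _).1 h2 with ⟨rfl, rfl⟩ | h2'
      · exact absurd hy ha
      exact ⟨c, (p.sub _ _ h1').1, h1', h2', (hL _ _).2 (Or.inr (p.rfl' c (p.sub _ _ h1').1))⟩

theorem add_coords (p : Co Ω) (F : Finset Ω) : ∃ q ≤ p, F ⊆ q.A := by
  classical
  induction F using Finset.induction_on with
  | empty => exact ⟨p, le_refl p, by simp⟩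
  | insert a F _ ih =>
    obtain ⟨q, hq, hF⟩ := ih
    obtain ⟨r, hr, ha⟩ := add_coord q a
    refine ⟨r, hr.trans hq, ?_⟩
    intro x hx
    rcases Finset.mem_insert.1 hx with rfl | h
    · exact ha
    · exact hr.1 (hF h)

/-- An isomorphism type of conditions. -/
structure Ty where
  n : ℕ
  L : Finset (Fin n × Fin n)
  rfl' : ∀ a, (a, a) ∈ L
  trans' : ∀ a b c, (a, b) ∈ L → (b, c) ∈ L → (a, c) ∈ L
  below : ∀ a b, (a, b) ∈ L → a ≤ b

instance : Countable Ty := by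
  have : Function.Injective (fun τ : Ty => (⟨τ.n, τ.L⟩ : Σ n : ℕ, Finset (Fin n × Fin n))) := by
    rintro ⟨n, L, h1, h2, h3⟩ ⟨n', L', h1', h2', h3'⟩ h
    simp only [Sigma.mk.injEq] at h
    obtain ⟨rfl, h⟩ := h
    have h := eq_of_heq h
    subst h
    rfl
  exact this.countable

/-- The condition of type `τ` given by an embedding. -/
noncomputable def std (τ : Ty) (e : Fin τ.n ↪o Ω) : Co Ω where
  A := Finset.univ.map e.toEmbedding
  L := τ.L.map (e.toEmbedding.prodMap e.toEmbedding)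
  sub a b h := by
    rw [Finset.mem_map] at h
    obtain ⟨⟨s, t⟩, -, h⟩ := h
    have h : (e s, e t) = (a, b) := h
    rw [Prod.mk.injEq] at h
    exact ⟨Finset.mem_map.2 ⟨s, Finset.mem_univ _, h.1⟩, Finset.mem_map.2 ⟨t, Finset.mem_univ _, h.2⟩⟩
  rfl' a h := by
    obtain ⟨s, -, rfl⟩ := Finset.mem_map.1 h
    exact Finset.mem_map.2 ⟨(s, s), τ.rfl' s, rfl⟩
  trans' a b c h h' := by
    obtain ⟨⟨s, t⟩, h1, h2⟩ := Finset.mem_map.1 h
    obtain ⟨⟨s', t'⟩, h1', h2'⟩ := Finset.mem_map.1 h'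
    have h2 : (e s, e t) = (a, b) := h2
    have h2' : (e s', e t') = (b, c) := h2'
    rw [Prod.mk.injEq] at h2 h2'
    have : t = s' := e.injective (h2.2.trans h2'.1.symm)
    subst this
    exact Finset.mem_map.2 ⟨(s, t'), τ.trans' s t t' h1 h1', by
      show (e s, e t') = (a, c)
      rw [h2.1, h2'.2]⟩
  below a b h := by
    obtain ⟨⟨s, t⟩, h1, h2⟩ := Finset.mem_map.1 h
    have h2 : (e s, e t) = (a, b) := h2
    rw [Prod.mk.injEq] at h2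
    rw [← h2.1, ← h2.2]
    exact e.monotone (τ.below s t h1)

theorem mem_std_A (τ : Ty) (e : Fin τ.n ↪o Ω) (a : Ω) : a ∈ (std τ e).A ↔ ∃ t, e t = a := by
  simp [std]

theorem mem_std_L (τ : Ty) (e : Fin τ.n ↪o Ω) (a b : Ω) :
    (a, b) ∈ (std τ e).L ↔ ∃ s t, (s, t) ∈ τ.L ∧ e s = a ∧ e t = b := by
  constructor
  · intro h
    obtain ⟨⟨s, t⟩, h1, h2⟩ := Finset.mem_map.1 h
    have h2 : (e s, e t) = (a, b) := h2
    rw [Prod.mk.injEq] at h2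
    exact ⟨s, t, h1, h2.1, h2.2⟩
  · rintro ⟨s, t, h1, rfl, rfl⟩
    exact Finset.mem_map.2 ⟨(s, t), h1, rfl⟩

theorem exists_std (q : Co Ω) : ∃ (τ : Ty) (e : Fin τ.n ↪o Ω), std τ e = q := by
  classical
  let e : Fin q.A.card ↪o Ω := q.A.orderEmbOfFin rfl
  have he : ∀ t, e t ∈ q.A := fun t => Finset.orderEmbOfFin_mem q.A rfl t
  have hs : ∀ a ∈ q.A, ∃ t, e t = a := by
    intro a ha
    have : a ∈ Set.range (q.A.orderEmbOfFin rfl) := by
      rw [Finset.range_orderEmbOfFin]; exact ha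
    exact this
  let τ : Ty := ⟨q.A.card, Finset.univ.filter (fun x => (e x.1, e x.2) ∈ q.L),
    fun a => by
      rw [Finset.mem_filter]; exact ⟨Finset.mem_univ _, q.rfl' _ (he a)⟩,
    fun a b c h h' => by
      rw [Finset.mem_filter] at h h' ⊢
      exact ⟨Finset.mem_univ _, q.trans' _ _ _ h.2 h'.2⟩,
    fun a b h => by
      rw [Finset.mem_filter] at h
      exact e.le_iff_le.1 (q.below _ _ h.2)⟩
  refine ⟨τ, e, Co.ext' ?_ ?_⟩
  · ext a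
    rw [mem_std_A]
    exact ⟨fun ⟨t, ht⟩ => ht ▸ he t, hs a⟩
  · ext ⟨a, b⟩
    rw [mem_std_L]
    constructor
    · rintro ⟨s, t, h, rfl, rfl⟩
      exact (Finset.mem_filter.1 h).2
    · intro h
      obtain ⟨s, rfl⟩ := hs a (q.sub _ _ h).1
      obtain ⟨t, rfl⟩ := hs b (q.sub _ _ h).2
      exact ⟨s, t, Finset.mem_filter.2 ⟨Finset.mem_univ _, h⟩, rfl, rfl⟩

theorem amalgam (τ : Ty) (m : ℕ) (e0 e1 : Fin τ.n ↪o Ω) (hroot : ∀ t : Fin τ.n, (t : ℕ) < m → e0 t = e1 t)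
    (hsep : ∀ s t : Fin τ.n, m ≤ (t : ℕ) → e0 s < e1 t) :
    ∃ R : Co Ω, R ≤ std τ e0 ∧ R ≤ std τ e1 ∧
      ∀ s t : Fin τ.n, ((e0 s, e1 t) ∈ R.L ↔ (s, t) ∈ τ.L) := by
  classical
  -- coincidences
  have hco : ∀ s t, e0 s = e1 t → s = t ∧ (t : ℕ) < m := by
    intro s t h
    by_cases ht : (t : ℕ) < m
    · exact ⟨e0.injective (h.trans (hroot t ht).symm), ht⟩
    · exact absurd h (hsep s t (not_lt.1 ht)).ne
  let L : Finset (Ω × Ω) := (std τ e0).L ∪ (std τ e1).L ∪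
    τ.L.image (fun x => (e0 x.1, e1 x.2))
  have hL : ∀ x y, (x, y) ∈ L ↔ ∃ s t, (s, t) ∈ τ.L ∧
      ((e0 s = x ∧ e0 t = y) ∨ (e1 s = x ∧ e1 t = y) ∨ (e0 s = x ∧ e1 t = y)) := by
    intro x y
    simp only [L, Finset.mem_union, mem_std_L, Finset.mem_image, Prod.mk.injEq, Prod.exists]
    constructor
    · rintro ((⟨s, t, h, h1, h2⟩ | ⟨s, t, h, h1, h2⟩) | ⟨s, t, h, h1, h2⟩)
      · exact ⟨s, t, h, Or.inl ⟨h1, h2⟩⟩
      · exact ⟨s, t, h, Or.inr (Or.inl ⟨h1, h2⟩)⟩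
      · exact ⟨s, t, h, Or.inr (Or.inr ⟨h1, h2⟩)⟩
    · rintro ⟨s, t, h, ⟨h1, h2⟩ | ⟨h1, h2⟩ | ⟨h1, h2⟩⟩
      · exact Or.inl (Or.inl ⟨s, t, h, h1, h2⟩)
      · exact Or.inl (Or.inr ⟨s, t, h, h1, h2⟩)
      · exact Or.inr ⟨s, t, h, h1, h2⟩
  -- lower bounds of `e0 t`
  have h0 : ∀ x t, (x, e0 t) ∈ L ↔ ∃ s, (s, t) ∈ τ.L ∧ e0 s = x := by
    intro x t
    rw [hL]
    constructor
    · rintro ⟨s, t', h, ⟨h1, h2⟩ | ⟨h1, h2⟩ | ⟨h1, h2⟩⟩
      · have := e0.injective h2; subst this; exact ⟨s, h, h1⟩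
      · obtain ⟨h3, h4⟩ := hco t t' h2.symm
        subst h3
        have hs : (s : ℕ) < m := lt_of_le_of_lt (Fin.le_def.1 (τ.below s t h)) h4
        exact ⟨s, h, (hroot s hs).trans h1⟩
      · obtain ⟨h3, h4⟩ := hco t t' h2.symm
        subst h3
        exact ⟨s, h, h1⟩
    · rintro ⟨s, h, h1⟩
      exact ⟨s, t, h, Or.inl ⟨h1, rfl⟩⟩
  have h1' : ∀ x t, (x, e1 t) ∈ L ↔ ∃ s, (s, t) ∈ τ.L ∧ (e0 s = x ∨ e1 s = x) := by
    intro x t
    rw [hL]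
    constructor
    · rintro ⟨s, t', h, ⟨h1, h2⟩ | ⟨h1, h2⟩ | ⟨h1, h2⟩⟩
      · obtain ⟨h3, h4⟩ := hco t' t h2
        subst h3
        exact ⟨s, h, Or.inl h1⟩
      · have := e1.injective h2; subst this; exact ⟨s, h, Or.inr h1⟩
      · have := e1.injective h2; subst this; exact ⟨s, h, Or.inl h1⟩
    · rintro ⟨s, h, h1 | h1⟩
      · exact ⟨s, t, h, Or.inr (Or.inr ⟨h1, rfl⟩)⟩
      · exact ⟨s, t, h, Or.inr (Or.inl ⟨h1, rfl⟩)⟩
  have hL2 : ∀ x y, (x, y) ∈ L → (∃ t, e0 t = y) ∨ (∃ t, e1 t = y) := by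
    intro x y h
    obtain ⟨s, t, -, ⟨-, h2⟩ | ⟨-, h2⟩ | ⟨-, h2⟩⟩ := (hL x y).1 h
    · exact Or.inl ⟨t, h2⟩
    · exact Or.inr ⟨t, h2⟩
    · exact Or.inr ⟨t, h2⟩
  refine ⟨⟨(std τ e0).A ∪ (std τ e1).A, L, ?_, ?_, ?_, ?_⟩, ?_, ?_, ?_⟩
  · intro x y h
    obtain ⟨s, t, -, ⟨h1, h2⟩ | ⟨h1, h2⟩ | ⟨h1, h2⟩⟩ := (hL x y).1 h <;>
      simp only [Finset.mem_union, mem_std_A]
    · exact ⟨Or.inl ⟨s, h1⟩, Or.inl ⟨t, h2⟩⟩
    · exact ⟨Or.inr ⟨s, h1⟩, Or.inr ⟨t, h2⟩⟩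
    · exact ⟨Or.inl ⟨s, h1⟩, Or.inr ⟨t, h2⟩⟩
  · intro x hx
    simp only [Finset.mem_union, mem_std_A] at hx
    rcases hx with ⟨t, rfl⟩ | ⟨t, rfl⟩
    · exact (h0 _ _).2 ⟨t, τ.rfl' t, rfl⟩
    · exact (h1' _ _).2 ⟨t, τ.rfl' t, Or.inr rfl⟩
  · intro x y z hxy hyz
    rcases hL2 y z hyz with ⟨t, rfl⟩ | ⟨t, rfl⟩
    · obtain ⟨s, hs, rfl⟩ := (h0 _ _).1 hyz
      obtain ⟨u, hu, rfl⟩ := (h0 _ _).1 hxy
      exact (h0 _ _).2 ⟨u, τ.trans' _ _ _ hu hs, rfl⟩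
    · obtain ⟨s, hs, rfl | rfl⟩ := (h1' _ _).1 hyz
      · obtain ⟨u, hu, rfl⟩ := (h0 _ _).1 hxy
        exact (h1' _ _).2 ⟨u, τ.trans' _ _ _ hu hs, Or.inl rfl⟩
      · obtain ⟨u, hu, h⟩ := (h1' _ _).1 hxy
        exact (h1' _ _).2 ⟨u, τ.trans' _ _ _ hu hs, h⟩
  · intro x y h
    obtain ⟨s, t, hst, ⟨h1, h2⟩ | ⟨h1, h2⟩ | ⟨h1, h2⟩⟩ := (hL x y).1 h
    · rw [← h1, ← h2]; exact e0.monotone (τ.below s t hst)
    · rw [← h1, ← h2]; exact e1.monotone (τ.below s t hst)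
    · rw [← h1, ← h2]
      by_cases ht : (t : ℕ) < m
      · rw [← hroot t ht]; exact e0.monotone (τ.below s t hst)
      · exact (hsep s t (not_lt.1 ht)).le
  · refine ⟨Finset.subset_union_left, ?_, ?_⟩
    · intro a ha b hb
      obtain ⟨t, rfl⟩ := (mem_std_A _ _ _).1 hb
      rw [mem_std_L]
      show (a, e0 t) ∈ L ↔ _
      rw [h0]
      constructor
      · rintro ⟨s, h, h1⟩; exact ⟨s, t, h, h1, rfl⟩
      · rintro ⟨s, t', h, h1, h2⟩
        have := e0.injective h2; subst this; exact ⟨s, h, h1⟩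
    · intro a ha b hb c hca hcb
      obtain ⟨s, rfl⟩ := (mem_std_A _ _ _).1 ha
      obtain ⟨t, rfl⟩ := (mem_std_A _ _ _).1 hb
      obtain ⟨u, hu, rfl⟩ := (h0 _ _).1 hca
      obtain ⟨u', hu', h⟩ := (h0 _ _).1 hcb
      have := e0.injective h; subst this
      exact ⟨e0 u', (mem_std_A _ _ _).2 ⟨u', rfl⟩, (mem_std_L _ _ _ _).2 ⟨u', s, hu, rfl, rfl⟩,
        (mem_std_L _ _ _ _).2 ⟨u', t, hu', rfl, rfl⟩, (h0 _ _).2 ⟨u', τ.rfl' u', rfl⟩⟩
  · refine ⟨Finset.subset_union_right, ?_, ?_⟩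
    · intro a ha b hb
      obtain ⟨s0, rfl⟩ := (mem_std_A _ _ _).1 ha
      obtain ⟨t, rfl⟩ := (mem_std_A _ _ _).1 hb
      rw [mem_std_L]
      show (e1 s0, e1 t) ∈ L ↔ _
      rw [h1']
      constructor
      · rintro ⟨s, h, h1 | h1⟩
        · have := (hco s s0 h1).1; subst this
          exact ⟨s, t, h, rfl, rfl⟩
        · have := e1.injective h1; subst this
          exact ⟨s, t, h, rfl, rfl⟩
      · rintro ⟨s, t', h, h1, h2⟩
        have := e1.injective h2; subst this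
        exact ⟨s, h, Or.inr h1⟩
    · intro a ha b hb c hca hcb
      obtain ⟨s, rfl⟩ := (mem_std_A _ _ _).1 ha
      obtain ⟨t, rfl⟩ := (mem_std_A _ _ _).1 hb
      obtain ⟨u, hu, hcu⟩ := (h1' _ _).1 hca
      obtain ⟨u', hu', hcu'⟩ := (h1' _ _).1 hcb
      have huu : u = u' := by
        rcases hcu with h | h <;> rcases hcu' with h' | h'
        · exact e0.injective (h.trans h'.symm)
        · exact (hco u u' (h.trans h'.symm)).1
        · exact ((hco u' u (h'.trans h.symm)).1).symm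
        · exact e1.injective (h.trans h'.symm)
      subst huu
      exact ⟨e1 u, (mem_std_A _ _ _).2 ⟨u, rfl⟩, (mem_std_L _ _ _ _).2 ⟨u, s, hu, rfl, rfl⟩,
        (mem_std_L _ _ _ _).2 ⟨u, t, hu', rfl, rfl⟩, (h1' _ _).2 ⟨u, τ.rfl' u, hcu⟩⟩
  · intro s t
    show (e0 s, e1 t) ∈ L ↔ _
    rw [h1']
    constructor
    · rintro ⟨u, h, h1 | h1⟩
      · have := e0.injective h1; subst this; exact h
      · have := (hco s u h1.symm).1; subst this; exact h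
    · intro h
      exact ⟨s, h, Or.inl rfl⟩

theorem delta_fix (hc : ∀ x : Ω, (Set.Iio x).Countable) (N : ℕ) (S0 : Set Ω)
    (hS0 : ¬ S0.Countable) (E : Ω → (Fin N ↪o Ω)) :
    ∃ (m : ℕ) (ρ : Fin N → Ω), ∀ x : Ω, ∃ β : ℕ → Ω, (∀ i, β i ∈ S0 ∧ x < β i) ∧
      StrictMono β ∧ (∀ i (t : Fin N), (t : ℕ) < m → E (β i) t = ρ t) ∧
      ∀ i k : ℕ, i < k → ∀ s t : Fin N, m ≤ (t : ℕ) → E (β i) s < E (β k) t := by
  classical
  have hne : Nonempty Ω := by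
    by_contra h
    rw [not_nonempty_iff] at h
    apply hS0
    have h1 : S0 = ∅ := Set.eq_empty_of_isEmpty S0
    rw [h1]
    exact Set.countable_empty
  have hIic : ∀ x : Ω, (Set.Iic x).Countable := fun x => by
    have h1 : Set.Iic x ⊆ insert x (Set.Iio x) := by
      intro y hy
      rcases eq_or_lt_of_le (Set.mem_Iic.1 hy) with h2 | h2
      · exact Or.inl h2
      · exact Or.inr h2
    exact ((hc x).insert x).mono h1
  obtain ⟨P, hPdef⟩ : ∃ P : ℕ → Prop, P = fun m => ∃ ρ : Fin N → Ω,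
      ¬ {β | β ∈ S0 ∧ ∀ t : Fin N, (t:ℕ) < m → E β t = ρ t}.Countable := ⟨_, rfl⟩
  have hP0 : P 0 := by
    rw [hPdef]
    obtain ⟨y⟩ := hne
    refine ⟨fun _ => y, fun h => hS0 (h.mono ?_)⟩
    intro β hβ
    exact ⟨hβ, fun t ht => absurd ht (Nat.not_lt_zero _)⟩
  obtain ⟨m, hm, hmN, hmax⟩ : ∃ m, P m ∧ m ≤ N ∧ (m < N → ¬ P (m+1)) := by
    refine ⟨Nat.findGreatest P N, Nat.findGreatest_spec (Nat.zero_le N) hP0,
      Nat.findGreatest_le N, fun h => ?_⟩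
    exact Nat.findGreatest_is_greatest (Nat.lt_succ_self _) h
  rw [hPdef] at hm
  obtain ⟨ρ, hρ⟩ := hm
  refine ⟨m, ρ, fun x => ?_⟩
  have hbad : ∀ hmN' : m < N, ∀ b, {β | (β ∈ S0 ∧ ∀ t : Fin N, (t:ℕ) < m → E β t = ρ t) ∧
      E β ⟨m, hmN'⟩ ≤ b}.Countable := by
    intro hmN' b
    have h1 : {β | (β ∈ S0 ∧ ∀ t : Fin N, (t:ℕ) < m → E β t = ρ t) ∧
      E β ⟨m, hmN'⟩ ≤ b} ⊆ ⋃ y ∈ Set.Iic b, {β | (β ∈ S0 ∧ ∀ t : Fin N, (t:ℕ) < m →
        E β t = ρ t) ∧ E β ⟨m, hmN'⟩ = y} := by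
      intro β hβ
      simp only [Set.mem_iUnion]
      exact ⟨E β ⟨m, hmN'⟩, hβ.2, hβ.1, rfl⟩
    refine Set.Countable.mono h1 (Set.Countable.biUnion (hIic b) fun y _ => ?_)
    by_contra hcon
    apply hmax hmN'
    rw [hPdef]
    refine ⟨Function.update ρ ⟨m, hmN'⟩ y, fun hcon' => hcon (hcon'.mono ?_)⟩
    rintro β ⟨⟨h2, h3⟩, h4⟩
    refine ⟨h2, fun t ht => ?_⟩
    by_cases h5 : t = ⟨m, hmN'⟩
    · rw [h5, Function.update_self]
      exact h4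
    · rw [Function.update_of_ne h5]
      apply h3
      have : (t:ℕ) ≠ m := fun h => h5 (Fin.ext h)
      omega
  obtain ⟨f, hf1, hf2⟩ := exists_seq_of_forall_finset_exists
    (fun β : Ω => (β ∈ S0 ∧ ∀ t : Fin N, (t:ℕ) < m → E β t = ρ t) ∧ x < β)
    (fun β β' : Ω => β < β' ∧ ∀ s t : Fin N, m ≤ (t:ℕ) → E β s < E β' t) (by
      intro F hF
      have hBc : (Set.Iic x ∪ (⋃ β ∈ F, Set.Iic β) ∪ (⋃ (h : m < N), ⋃ β ∈ F, ⋃ s : Fin N,
          {β' | (β' ∈ S0 ∧ ∀ t : Fin N, (t:ℕ) < m → E β' t = ρ t) ∧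
            E β' ⟨m, h⟩ ≤ E β s})).Countable := by
        refine ((hIic x).union ?_).union ?_
        · exact F.countable_toSet.biUnion fun β _ => hIic β
        · refine Set.countable_iUnion fun h => ?_
          refine F.countable_toSet.biUnion fun β _ => ?_
          exact Set.countable_iUnion fun s => hbad h (E β s)
      have hex : ∃ β', (β' ∈ S0 ∧ ∀ t : Fin N, (t:ℕ) < m → E β' t = ρ t) ∧
          β' ∉ (Set.Iic x ∪ (⋃ β ∈ F, Set.Iic β) ∪ (⋃ (h : m < N), ⋃ β ∈ F, ⋃ s : Fin N,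
          {β' | (β' ∈ S0 ∧ ∀ t : Fin N, (t:ℕ) < m → E β' t = ρ t) ∧
            E β' ⟨m, h⟩ ≤ E β s})) := by
        by_contra hcon
        push Not at hcon
        exact hρ (hBc.mono fun β hβ => hcon β hβ)
      obtain ⟨β', hβ', hB⟩ := hex
      rw [Set.mem_union, Set.mem_union, not_or, not_or] at hB
      obtain ⟨⟨hB1, hB2⟩, hB3⟩ := hB
      refine ⟨β', ⟨hβ', not_le.1 hB1⟩, fun β hβ => ⟨?_, fun s t hmt => ?_⟩⟩
      · by_contra hcon
        apply hB2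
        simp only [Set.mem_iUnion]
        exact ⟨β, hβ, not_lt.1 hcon⟩
      · have hm' : m < N := lt_of_le_of_lt hmt t.2
        have h1 : E β s < E β' ⟨m, hm'⟩ := by
          by_contra hcon
          apply hB3
          simp only [Set.mem_iUnion]
          exact ⟨hm', β, hβ, s, hβ', not_lt.1 hcon⟩
        refine lt_of_lt_of_le h1 ?_
        exact (E β').monotone hmt)
  refine ⟨f, fun i => ⟨(hf1 i).1.1, (hf1 i).2⟩, ?_, fun i t ht => (hf1 i).1.2 t ht,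
    fun i k hik s t hm => (hf2 i k hik).2 s t hm⟩
  intro i k hik
  exact (hf2 i k hik).1


theorem delta_seq [Uncountable Ω] (hc : ∀ x : Ω, (Set.Iio x).Countable) {T : Type} [Countable T]
    (n : T → ℕ) (f : Ω → Σ τ : T, (Fin (n τ) ↪o Ω)) :
    ∃ (τ : T) (m : ℕ) (ρ : Fin (n τ) → Ω), ∀ x : Ω, ∃ (β : ℕ → Ω) (e : ℕ → (Fin (n τ) ↪o Ω)),
      (∀ i, x < β i) ∧ StrictMono β ∧ (∀ i, f (β i) = ⟨τ, e i⟩) ∧
      (∀ i (t : Fin (n τ)), (t : ℕ) < m → e i t = ρ t) ∧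
      ∀ i k : ℕ, i < k → ∀ s t : Fin (n τ), m ≤ (t : ℕ) → e i s < e k t := by
  classical
  obtain ⟨τ, hτ⟩ : ∃ τ : T, ¬ {β : Ω | (f β).1 = τ}.Countable := by
    by_contra hcon
    push Not at hcon
    have h1 : (Set.univ : Set Ω) ⊆ ⋃ τ : T, {β : Ω | (f β).1 = τ} := by
      intro β _
      exact Set.mem_iUnion.mpr ⟨(f β).1, rfl⟩
    exact Set.not_countable_univ ((Set.countable_iUnion hcon).mono h1)
  have hE : ∀ β : Ω, ∃ e : Fin (n τ) ↪o Ω, (f β).1 = τ → f β = ⟨τ, e⟩ := by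
    have key : ∀ s : Σ τ : T, (Fin (n τ) ↪o Ω), s.1 = τ → ∃ e : Fin (n τ) ↪o Ω, s = ⟨τ, e⟩ := by
      rintro ⟨τ', e'⟩ h
      subst h
      exact ⟨e', rfl⟩
    intro β
    by_cases h : (f β).1 = τ
    · obtain ⟨e, he⟩ := key (f β) h
      exact ⟨e, fun _ => he⟩
    · have hne : {β : Ω | (f β).1 = τ}.Nonempty := by
        rw [Set.nonempty_iff_ne_empty]
        intro h0
        exact hτ (by rw [h0]; exact Set.countable_empty)
      obtain ⟨β0, h0⟩ := hne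
      obtain ⟨e, -⟩ := key (f β0) h0
      exact ⟨e, fun h' => absurd h' h⟩
  choose E hE using hE
  obtain ⟨m, ρ, hmρ⟩ := delta_fix hc (n τ) {β : Ω | (f β).1 = τ} hτ E
  refine ⟨τ, m, ρ, fun x => ?_⟩
  obtain ⟨β, h1, h2, h3, h4⟩ := hmρ x
  exact ⟨β, fun i => E (β i), fun i => (h1 i).2, h2, fun i => hE (β i) (h1 i).1, h3, h4⟩


theorem rel_iff (R q : Co Ω) (hq : q ≤ R) (x y : Ω) (hx : x ∈ R.A) (hy : y ∈ R.A) :
    q ∈ meets {w : Co Ω | (x, y) ∈ w.L} ↔ (x, y) ∈ R.L := by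
  constructor
  · intro h
    obtain ⟨r, hr, s, hs, hrs⟩ := h q le_rfl
    have hs : (x, y) ∈ s.L := hs
    have h1 : (x, y) ∈ r.L := (hrs.2.1 x (s.sub _ _ hs).1 y (s.sub _ _ hs).2).2 hs
    have h2 : r ≤ R := hr.trans hq
    exact (h2.2.1 x hx y hy).1 h1
  · intro h
    have h1 : (x, y) ∈ q.L := (hq.2.1 x hx y hy).2 h
    exact meets_of_mem h1

theorem good_list (p : Co Ω) (c : Ω → List (Ω × ℚ × ℚ) → Set (Co Ω)) (h : p ∈ IsFun c) (β : Ω) :
    ∃ x : Σ y : (Σ τ : Ty, List (Fin τ.n × ℚ × ℚ)), (Fin y.1.n ↪o Ω),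
      std x.1.1 x.2 ≤ p ∧ std x.1.1 x.2 ∈ meets (c β (x.1.2.map fun z => (x.2 z.1, z.2))) := by
  classical
  obtain ⟨q, hqp, l, hq⟩ := IsFun.total h β
  obtain ⟨q', hq', hF⟩ := add_coords q (l.map Prod.fst).toFinset
  obtain ⟨τ, e, rfl⟩ := exists_std q'
  have hl : ∃ l' : List (Fin τ.n × ℚ × ℚ), l'.map (fun z => (e z.1, z.2)) = l := by
    have hmem : ∀ z ∈ l, ∃ t, e t = z.1 := by
      intro z hz
      refine (mem_std_A τ e z.1).1 (hF ?_)
      rw [List.mem_toFinset]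
      exact List.mem_map_of_mem hz
    clear hF hq
    induction l with
    | nil => exact ⟨[], rfl⟩
    | cons z l ih =>
      obtain ⟨l', hl'⟩ := ih (fun w hw => hmem w (List.mem_cons_of_mem _ hw))
      obtain ⟨t, ht⟩ := hmem z List.mem_cons_self
      refine ⟨(t, z.2) :: l', ?_⟩
      rw [List.map_cons, hl']
      show (e t, z.2) :: l = z :: l
      rw [ht]
  obtain ⟨l', rfl⟩ := hl
  exact ⟨⟨⟨τ, l'⟩, e⟩, hq'.trans hqp, down_meets _ q hq _ hq'⟩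

theorem force_twin [Uncountable Ω] (hc : ∀ x : Ω, (Set.Iio x).Countable) (p : Co Ω)
    (c : Ω → List (Ω × ℚ × ℚ) → Set (Co Ω)) (h : p ∈ IsFun c) :
    ∃ R ≤ p, ∃ (β α : Ω) (l m : List (Ω × ℚ × ℚ)), (β < α ∧ l.map Prod.snd = m.map Prod.snd) ∧
      R ∈ meets (c β l) ∧ R ∈ meets (c α m) ∧
      ∀ e ∈ l.zip m, ∀ b ∈ m, (e.1.1 ∈ R.A ∧ e.2.1 ∈ R.A ∧ b.1 ∈ R.A ∧
        ((e.1.1, b.1) ∈ R.L ↔ (e.2.1, b.1) ∈ R.L)) := by
  classical
  choose f hf1 hf2 using good_list p c h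
  obtain ⟨⟨τ, l'⟩, m, ρ, hρ⟩ := delta_seq hc
    (T := Σ τ : Ty, List (Fin τ.n × ℚ × ℚ)) (fun y => y.1.n) f
  obtain ⟨x⟩ : Nonempty Ω := inferInstance
  obtain ⟨β, e, hx, hβ, hfe, hroot', hsep⟩ := hρ x
  obtain ⟨R, hR0, hR1, hR⟩ := amalgam τ m (e 0) (e 1)
    (fun t ht => by rw [hroot' 0 t ht, hroot' 1 t ht]) (fun s t ht => hsep 0 1 Nat.zero_lt_one s t ht)
  have hf1' : ∀ k, std τ (e k) ≤ p := by
    intro k
    have := hf1 (β k)
    rw [hfe k] at this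
    exact this
  have hf2' : ∀ k, std τ (e k) ∈ meets (c (β k) (l'.map fun z => (e k z.1, z.2))) := by
    intro k
    have := hf2 (β k)
    rw [hfe k] at this
    exact this
  refine ⟨R, hR0.trans (hf1' 0), β 0, β 1, _, _, ⟨hβ Nat.zero_lt_one, ?_⟩,
    down_meets _ _ (hf2' 0) _ hR0, down_meets _ _ (hf2' 1) _ hR1, ?_⟩
  · rw [List.map_map, List.map_map]; rfl
  · intro w hw b hb
    have hw' : ∃ z ∈ l', w = ((e 0 z.1, z.2), (e 1 z.1, z.2)) := by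
      have : (l'.map fun z => (e 0 z.1, z.2)).zip (l'.map fun z => (e 1 z.1, z.2)) =
          l'.map (fun z => ((e 0 z.1, z.2), (e 1 z.1, z.2))) := by
        rw [List.zip_map', ]
      rw [this, List.mem_map] at hw
      obtain ⟨z, hz, rfl⟩ := hw
      exact ⟨z, hz, rfl⟩
    obtain ⟨z, hz, rfl⟩ := hw'
    obtain ⟨y, hy, rfl⟩ := List.mem_map.1 hb
    have hA0 : ∀ t, e 0 t ∈ R.A := fun t => hR0.1 ((mem_std_A _ _ _).2 ⟨t, rfl⟩)
    have hA1 : ∀ t, e 1 t ∈ R.A := fun t => hR1.1 ((mem_std_A _ _ _).2 ⟨t, rfl⟩)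
    refine ⟨hA0 _, hA1 _, hA1 _, ?_⟩
    show (e 0 z.1, e 1 y.1) ∈ R.L ↔ (e 1 z.1, e 1 y.1) ∈ R.L
    rw [hR, hR1.2.1 _ ((mem_std_A _ _ _).2 ⟨z.1, rfl⟩) _ ((mem_std_A _ _ _).2 ⟨y.1, rfl⟩), mem_std_L]
    constructor
    · intro h; exact ⟨_, _, h, rfl, rfl⟩
    · rintro ⟨s, t, h, h1, h2⟩
      rw [(e 1).injective h1, (e 1).injective h2] at h
      exact h

theorem co_inj [WellFoundedLT Ω] (hc : ∀ x : Ω, (Set.Iio x).Countable) (A : Set (Co Ω))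
    (hA : ¬ A.Countable) : ∃ g : Ω → Co Ω, Function.Injective g ∧ ∀ β, g β ∈ A := by
  classical
  obtain ⟨g, hg⟩ : ∃ g : Ω → Co Ω, ∀ β, g β = Classical.epsilon (fun q => q ∈ A ∧ ∀ α, α < β → g α ≠ q) := by
    refine ⟨WellFounded.fix (wellFounded_lt (α := Ω)) (fun β rec => Classical.epsilon
      (fun q => q ∈ A ∧ ∀ α (h : α < β), rec α h ≠ q)), fun β => ?_⟩
    rw [WellFounded.fix_eq]
  have key : ∀ β, g β ∈ A ∧ ∀ α, α < β → g α ≠ g β := by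
    intro β
    have hex : ∃ q, q ∈ A ∧ ∀ α, α < β → g α ≠ q := by
      by_contra hcon
      push Not at hcon
      apply hA
      refine Set.Countable.mono ?_ ((hc β).image g)
      intro q hq
      obtain ⟨α, hα, h⟩ := hcon q hq
      exact ⟨α, hα, h⟩
    have := Classical.epsilon_spec hex
    rw [← hg β] at this
    exact this
  refine ⟨g, ?_, fun β => (key β).1⟩
  intro a b hab
  rcases lt_trichotomy a b with h | h | h
  · exact absurd hab ((key b).2 a h)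
  · exact h
  · exact absurd hab.symm ((key a).2 b h)

theorem co_ccc [WellFoundedLT Ω] [Uncountable Ω] (hc : ∀ x : Ω, (Set.Iio x).Countable) :
    CCC (Co Ω) := by
  classical
  intro A hA
  by_contra hcount
  obtain ⟨g, hinj, hgA⟩ := co_inj hc A hcount
  have h1 : ∀ β, ∃ y : Σ τ : Ty, (Fin τ.n ↪o Ω), std y.1 y.2 ≤ g β := by
    intro β
    obtain ⟨τ, e, h⟩ := exists_std (g β)
    exact ⟨⟨τ, e⟩, h.le⟩
  choose f hf using h1
  obtain ⟨τ, m, ρ, h⟩ := delta_seq hc Ty.n f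
  obtain ⟨x⟩ : Nonempty Ω := inferInstance
  obtain ⟨β, e, -, hmono, hfe, hroot, hsep⟩ := h x
  obtain ⟨R, hR0, hR1, -⟩ := amalgam τ m (e 0) (e 1)
    (fun t ht => by rw [hroot 0 t ht, hroot 1 t ht]) (fun s t ht => hsep 0 1 Nat.zero_lt_one s t ht)
  have e0 : std τ (e 0) ≤ g (β 0) := by
    have := hf (β 0)
    rw [hfe 0] at this
    exact this
  have e1 : std τ (e 1) ≤ g (β 1) := by
    have := hf (β 1)
    rw [hfe 1] at this
    exact this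
  have := hinj (hA _ (hgA (β 0)) _ (hgA (β 1)) ⟨R, hR0.trans e0, hR1.trans e1⟩)
  exact absurd this (hmono (by norm_num : (0:ℕ) < 1)).ne

theorem down_rel (x y : Ω) : Down {w : Co Ω | (x, y) ∈ w.L} := by
  intro w hw w' hw'
  have hw : (x, y) ∈ w.L := hw
  exact (hw'.2.1 x (w.sub _ _ hw).1 y (w.sub _ _ hw).2).2 hw

theorem force_order (p : Co Ω) : p ∈ FOrder (fun a b => {w : Co Ω | (a, b) ∈ w.L}) := by
  refine ⟨fun a => ?_, fun a b c => mem_fimp.2 fun q _ h => ?_, fun a b => mem_fimp.2 fun q _ h => ?_⟩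
  · intro q _
    obtain ⟨r, hr, ha⟩ := add_coord q a
    exact ⟨r, hr, r, r.rfl' a ha, le_rfl⟩
  · obtain ⟨r, hr, h1⟩ := exists_of_meets (down_rel a b) h.1
    obtain ⟨s, hs, h2⟩ := exists_of_meets (down_rel b c) (down_meets _ _ h.2 _ hr)
    refine ⟨s, hs.trans hr, meets_of_mem ?_⟩
    exact s.trans' a b c (down_rel a b r h1 s hs) h2
  · obtain ⟨r, hr, h1⟩ := exists_of_meets (down_rel a b) h
    exact ⟨r, hr, r.below a b h1⟩

theorem force_meet (p : Co Ω) : p ∈ FMeet (fun a b => {w : Co Ω | (a, b) ∈ w.L}) := by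
  classical
  intro a b
  rw [mem_fex]
  intro q _
  obtain ⟨r0, hr0, ha0⟩ := add_coord q a
  obtain ⟨r, hr1, hb⟩ := add_coord r0 b
  have ha : a ∈ r.A := hr1.1 ha0
  refine ⟨r, hr1.trans hr0, r.A.filter (fun d => (d, a) ∈ r.L ∧ (d, b) ∈ r.L), fun c => ⟨?_, ?_⟩⟩
  · rw [mem_fimp]
    intro q' hq' h
    obtain ⟨s, hs, h1⟩ := exists_of_meets (down_rel c a) h.1
    obtain ⟨u, hu, h2⟩ := exists_of_meets (down_rel c b) (down_meets _ _ h.2 _ hs)
    have h1' : (c, a) ∈ u.L := down_rel c a s h1 u hu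
    have hur : u ≤ r := hu.trans (hs.trans hq')
    obtain ⟨d, hd, hda, hdb, hcd⟩ := hur.2.2 a ha b hb c h1' h2
    refine ⟨u, hu.trans hs, mem_fex_of_mem d (down_fand (down_fground _) (down_meets _)) ?_⟩
    exact ⟨Finset.mem_filter.2 ⟨hd, hda, hdb⟩, meets_of_mem hcd⟩
  · rw [mem_fimp]
    intro q' hq' h
    obtain ⟨s, hs, d, hd, hcd⟩ := mem_fex.1 h q' le_rfl
    have hd := (Finset.mem_filter.1 hd).2
    obtain ⟨u, hu, h2⟩ := exists_of_meets (down_rel c d) hcd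
    have hur : u ≤ r := hu.trans (hs.trans hq')
    refine ⟨u, hu.trans hs, meets_of_mem ?_, meets_of_mem ?_⟩
    · exact u.trans' c d a h2 (down_rel d a r hd.1 u hur)
    · exact u.trans' c d b h2 (down_rel d b r hd.2 u hur)

theorem forced [Uncountable Ω] (hc : ∀ x : Ω, (Set.Iio x).Countable) (p : Co Ω) :
    p ∈ ForcesAsplundPrinciple (Co Ω) Ω := by
  refine mem_fex_of_mem (fun a b => {w : Co Ω | (a, b) ∈ w.L}) ?_
    ⟨force_order p, force_meet p, fun c => mem_fimp.2 fun q _ hqc => ?_⟩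
  · refine down_fand (down_fand (down_fall fun _ => down_meets _) (down_fand
      (down_fall fun _ => down_fall fun _ => down_fall fun _ => down_fimp _ _)
      (down_fall fun _ => down_fall fun _ => down_fimp _ _))) (down_fand
      (down_fall fun _ => down_fall fun _ => down_fex _) (down_fall fun _ => down_fimp _ _))
  · obtain ⟨R, hR, β, α, l, m, h1, h2, h3, h4⟩ := force_twin hc q c hqc
    refine ⟨R, hR, mem_fex_of_mem β (down_fex _) (mem_fex_of_mem α (down_fex _)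
      (mem_fex_of_mem l (down_fex _) (mem_fex_of_mem m
        (down_fand (down_fground _) (down_fand (down_meets _) (down_fand (down_meets _)
          (down_fall fun e => down_fall fun _ => down_fall fun b => down_fall fun _ =>
            down_fand (down_fimp _ _) (down_fimp _ _))))) ?_)))⟩
    refine ⟨h1, h2, h3, fun e he b hb => ⟨?_, ?_⟩⟩
    · rw [mem_fimp]
      intro q' hq' hq''
      obtain ⟨ha, hb', hc', h5⟩ := h4 e he b hb
      exact ⟨q', le_rfl, (rel_iff R q' hq' _ _ hb' hc').2 (h5.1 ((rel_iff R q' hq' _ _ ha hc').1 hq''))⟩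
    · rw [mem_fimp]
      intro q' hq' hq''
      obtain ⟨ha, hb', hc', h5⟩ := h4 e he b hb
      exact ⟨q', le_rfl, (rel_iff R q' hq' _ _ ha hc').2 (h5.2 ((rel_iff R q' hq' _ _ hb' hc').1 hq''))⟩

end Order

/-- There is a well-order of type `ω₁`. -/
theorem exists_omega : ∃ (Ω : Type) (_ : LinearOrder Ω), WellFoundedLT Ω ∧ Uncountable Ω ∧
    ∀ x : Ω, (Set.Iio x).Countable := by
  refine ⟨(ℵ_ 1).ord.ToType, inferInstance, inferInstance, ?_, ?_⟩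
  · rw [← Cardinal.aleph0_lt_mk_iff, Cardinal.mk_ord_toType]
    exact Cardinal.aleph0_lt_aleph_one
  · intro x
    have h : #(Set.Iio x) < ℵ_ 1 := Cardinal.mk_Iio_toType_ord_lt x
    rw [← Cardinal.le_aleph0_iff_set_countable]
    exact Order.lt_succ_iff.1 (h.trans_eq Cardinal.succ_aleph0.symm)

/-- The main theorem. -/
theorem final :
    (∃ (Ω : Type) (_ : LinearOrder Ω), WellFoundedLT Ω ∧ Uncountable Ω ∧
      ∀ x : Ω, (Set.Iio x).Countable) ∧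
    (∀ (Ω : Type) [LinearOrder Ω] [WellFoundedLT Ω] [Uncountable Ω],
      (∀ x : Ω, (Set.Iio x).Countable) → AsplundPrinciple Ω → ¬ PositiveQ1) ∧
    (∀ (Ω : Type) [LinearOrder Ω] [WellFoundedLT Ω] [Uncountable Ω],
      (∀ x : Ω, (Set.Iio x).Countable) → ∃ (P : Type) (_ : Preorder P), Nonempty P ∧ CCC P ∧
        ∀ p : P, p ∈ ForcesAsplundPrinciple P Ω) ∧
    (∀ (Ω : Type) [LinearOrder Ω],
      (() ∈ ForcesAsplundPrinciple Unit Ω) ↔ AsplundPrinciple Ω) := by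
  refine ⟨exists_omega, ?_, ?_, ?_⟩
  · intro Ω _ _ _ hc h
    exact zfc Ω hc h
  · intro Ω _ _ _ hc
    exact ⟨Co Ω, inferInstance, inferInstance, co_ccc hc, fun p => forced hc p⟩
  · intro Ω _
    exact trivial_forces Ω

end Pool.Agent.Helper161.Asp
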